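import Mathlib

/-!
# Selection principles for τ-covers and cardinal characteristics: definitions
-/

namespace Pool.Agent.Helper803.TauCov

open Cardinal

/-! ### Covers and selection principles of a set of reals -/

/-- `U` is a cover of `X`: a family of open subsets of `X` whose union is `X` and which does not
have `X` as a member. -/
def Cov (X : Set ℝ) (U : Set (Set X)) : Prop :=
  (∀ u ∈ U, IsOpen u) ∧ (∀ x : X, ∃ u ∈ U, x ∈ u) ∧ Set.univ ∉ U

/-- `U` is an ω-cover: each finite subset of `X` is contained in a member. -/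
def Om (X : Set ℝ) (U : Set (Set X)) : Prop :=
  Cov X U ∧ ∀ F : Finset X, ∃ u ∈ U, (F : Set X) ⊆ u

/-- `U` is a γ-cover: it is infinite and each point is in all but finitely many members. -/
def Ga (X : Set ℝ) (U : Set (Set X)) : Prop :=
  Cov X U ∧ U.Infinite ∧ ∀ x : X, {u ∈ U | x ∉ u}.Finite

/-- `U` is a τ-cover: each point is in infinitely many members and, for all points `x`, `y`, one
of the sets of all members containing `x` but not `y`, and `y` but not `x`, is finite. -/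
def Ta (X : Set ℝ) (U : Set (Set X)) : Prop :=
  Cov X U ∧ (∀ x : X, {u ∈ U | x ∈ u}.Infinite) ∧
    ∀ x y : X, {u ∈ U | x ∈ u ∧ y ∉ u}.Finite ∨ {u ∈ U | y ∈ u ∧ x ∉ u}.Finite

/-- `S_1(A, B)` for `X`. -/
def S1 (A B : ∀ X : Set ℝ, Set (Set X) → Prop) (X : Set ℝ) : Prop :=
  ∀ U : ℕ → Set (Set X), (∀ n, A X (U n)) →
    ∃ V : ℕ → Set X, (∀ n, V n ∈ U n) ∧ B X (Set.range V)

/-- `S_fin(A, B)` for `X`. -/
def Sfin (A B : ∀ X : Set ℝ, Set (Set X) → Prop) (X : Set ℝ) : Prop :=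
  ∀ U : ℕ → Set (Set X), (∀ n, A X (U n)) →
    ∃ F : ℕ → Set (Set X), (∀ n, (F n).Finite ∧ F n ⊆ U n) ∧ B X (⋃ n, F n)

/-- `non(P)`: the least cardinality of a nonempty set of reals without the property `P`. -/
noncomputable def non (P : Set ℝ → Prop) : Cardinal.{0} :=
  sInf {κ | ∃ X : Set ℝ, X.Nonempty ∧ ¬ P X ∧ #X = κ}

/-! ### Cardinal characteristics -/

/-- Almost inclusion: `A \ B` is finite. -/
def AS (A B : Set ℕ) : Prop := (A \ B).Finite

/-- `t`: the least cardinality of a family of infinite subsets of `ℕ`, linearly quasiordered by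
almost inclusion, without an infinite pseudo-intersection. -/
noncomputable def tNum : Cardinal.{0} :=
  sInf {κ | ∃ T : Set (Set ℕ), (∀ A ∈ T, A.Infinite) ∧ (∀ A ∈ T, ∀ B ∈ T, AS A B ∨ AS B A) ∧
    (¬ ∃ P : Set ℕ, P.Infinite ∧ ∀ A ∈ T, AS P A) ∧ #T = κ}

/-- `b`: the least cardinality of a family of functions unbounded for eventual dominance. -/
noncomputable def bNum : Cardinal.{0} :=
  sInf {κ | ∃ F : Set (ℕ → ℕ), (¬ ∃ h : ℕ → ℕ, ∀ f ∈ F, {n | h n < f n}.Finite) ∧ #F = κ}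

/-- `s`: the least cardinality of a splitting family. -/
noncomputable def sNum : Cardinal.{0} :=
  sInf {κ | ∃ F : Set (Set ℕ),
    (∀ A : Set ℕ, A.Infinite → ∃ S ∈ F, (A ∩ S).Infinite ∧ (A \ S).Infinite) ∧ #F = κ}

/-- `od`: the least cardinality of a τ-family that is not `o`-diagonalizable. -/
noncomputable def odNum : Cardinal.{0} :=
  sInf {κ | ∃ F : Set (ℕ → Set ℕ), (∀ A ∈ F, ∀ n, (A n).Infinite) ∧
    (∀ n, ∀ A ∈ F, ∀ B ∈ F, AS (A n) (B n) ∨ AS (B n) (A n)) ∧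
    (¬ ∃ g : ℕ → ℕ, ∀ A ∈ F, ∃ n, g n ∈ A n) ∧ #F = κ}

/-! ### Index versions, `κ` is less than the characteristic -/

/-- `κ < t`. -/
def TL (κ : Cardinal.{0}) : Prop :=
  ∀ (ι : Type) (A : ι → Set ℕ), #ι ≤ κ → (∀ i, (A i).Infinite) →
    (∀ i j, AS (A i) (A j) ∨ AS (A j) (A i)) → ∃ P : Set ℕ, P.Infinite ∧ ∀ i, AS P (A i)

/-- `κ < b`. -/
def BL (κ : Cardinal.{0}) : Prop :=
  ∀ (ι : Type) (f : ι → ℕ → ℕ), #ι ≤ κ → ∃ h : ℕ → ℕ, ∀ i, {n | h n < f i n}.Finite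

/-- `κ < s`. -/
def SL (κ : Cardinal.{0}) : Prop :=
  ∀ (ι : Type) (S : ι → Set ℕ), #ι ≤ κ →
    ∃ A : Set ℕ, A.Infinite ∧ ∀ i, (A ∩ S i).Finite ∨ (A \ S i).Finite

/-- `κ < od`. -/
def OL (κ : Cardinal.{0}) : Prop :=
  ∀ (ι : Type) (A : ι → ℕ → Set ℕ), #ι ≤ κ → (∀ i n, (A i n).Infinite) →
    (∀ n i j, AS (A i n) (A j n) ∨ AS (A j n) (A i n)) → ∃ g : ℕ → ℕ, ∀ i, ∃ n, g n ∈ A i n

end Pool.Agent.Helper803.TauCov
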