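import Mathlib
import Pool.Agent.Helper803.TauCov.Defs

/-!
# Critical cardinalities of selection principles for τ-covers
-/

namespace Pool.Agent.Helper803.TauCov

open Cardinal

/-! ### distributive -/

section Sdistributive



theorem distributive (κ : Cardinal.{0}) (hT : TL κ) (ι : Type) (hι : #ι ≤ κ)
    (D : ι → Set (Set ℕ)) (hD1 : ∀ i, ∀ P ∈ D i, ∀ Q : Set ℕ, Q.Infinite → AS Q P → Q ∈ D i)
    (hD2 : ∀ i, ∀ P : Set ℕ, P.Infinite → ∃ Q ⊆ P, Q.Infinite ∧ Q ∈ D i) :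
    ∃ P : Set ℕ, P.Infinite ∧ ∀ i, P ∈ D i := by
  classical
  let r : ι → ι → Prop := WellOrderingRel
  have wf : WellFounded r := IsWellFounded.wf
  have htri : ∀ i j, r i j ∨ i = j ∨ r j i := fun i j => trichotomous_of WellOrderingRel i j
  let F : ∀ i, (∀ j, r j i → Set ℕ) → Set ℕ := fun i z =>
    if h : ∃ Q : Set ℕ, Q.Infinite ∧ Q ∈ D i ∧ ∀ j hj, AS Q (z j hj) then h.choose else Set.univ
  let Z : ι → Set ℕ := wf.fix F
  have hZ : ∀ i, Z i = F i (fun j _ => Z j) := fun i => wf.fix_eq F i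
  have hrefl : ∀ A : Set ℕ, AS A A := fun A => by unfold AS; simp
  have claim : ∀ i, (Z i).Infinite ∧ Z i ∈ D i ∧ ∀ j, r j i → AS (Z i) (Z j) := by
    intro i
    induction i using wf.induction with
    | _ i ih =>
      have hex : ∃ Q : Set ℕ, Q.Infinite ∧ Q ∈ D i ∧ ∀ j (_ : r j i), AS Q (Z j) := by
        have hcard : #{j // r j i} ≤ κ := (Cardinal.mk_subtype_le _).trans hι
        obtain ⟨P, hP, hPZ⟩ := hT {j // r j i} (fun j => Z j.1) hcard (fun j => (ih j.1 j.2).1) (by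
          intro j j'
          rcases htri j.1 j'.1 with h | h | h
          · right; exact (ih j'.1 j'.2).2.2 _ h
          · left; rw [h]; exact hrefl _
          · left; exact (ih j.1 j.2).2.2 _ h)
        obtain ⟨Q, hQP, hQ, hQD⟩ := hD2 i P hP
        refine ⟨Q, hQ, hQD, fun j hj => ?_⟩
        exact (hPZ ⟨j, hj⟩).subset (Set.diff_subset_diff_left hQP)
      have hval : Z i = hex.choose := by
        rw [hZ i]
        show (if h : ∃ Q : Set ℕ, Q.Infinite ∧ Q ∈ D i ∧ ∀ j (_ : r j i), AS Q (Z j) then h.choose else Set.univ) = _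
        rw [dif_pos hex]
      rw [hval]
      exact hex.choose_spec
  obtain ⟨P, hP, hPZ⟩ := hT ι Z hι (fun i => (claim i).1) (by
    intro i j
    rcases htri i j with h | h | h
    · right; exact (claim j).2.2 _ h
    · left; rw [h]; exact hrefl _
    · left; exact (claim i).2.2 _ h)
  exact ⟨P, hP, fun i => hD1 i (Z i) (claim i).2.1 P hP (hPZ i)⟩

end Sdistributive


/-! ### TL_BL -/

section STL_BL



theorem TL_BL {κ : Cardinal.{0}} (h : TL κ) : BL κ := by
  intro ι f hι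
  obtain ⟨g, hg⟩ : ∃ g : ι → ℕ → ℕ, g = fun i n => (Finset.range (n + 1)).sup (f i) := ⟨_, rfl⟩
  have hfg : ∀ i n, f i n ≤ g i n := by
    intro i n
    rw [hg]
    exact Finset.le_sup (f := f i) (Finset.mem_range.2 (Nat.lt_succ_self n))
  have hmono : ∀ i m n, m ≤ n → g i m ≤ g i n := by
    intro i m n hmn
    rw [hg]
    exact Finset.sup_mono (Finset.range_mono (Nat.succ_le_succ hmn))
  obtain ⟨P, hP, hPD⟩ := distributive κ h ι hι
    (fun i => {P | ∃ N : ℕ, ∀ p ∈ P, N ≤ p → ∀ q ∈ P, p < q → g i p ≤ q}) (by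
      rintro i P ⟨N, hN⟩ Q hQ hQP
      obtain ⟨M, hM⟩ := hQP.bddAbove
      have hin : ∀ x ∈ Q, M + 1 ≤ x → x ∈ P := by
        intro x hx hMx
        by_contra hxP
        have := hM ⟨hx, hxP⟩
        omega
      refine ⟨max N (M + 1), fun p hp hNp q hq hpq => ?_⟩
      have h1 : M + 1 ≤ p := (le_max_right _ _).trans hNp
      exact hN p (hin p hp h1) ((le_max_left _ _).trans hNp) q (hin q hq (by omega)) hpq) (by
      intro i P hP
      have hex : ∀ n : ℕ, ∃ m ∈ P, n < m ∧ g i n ≤ m := by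
        intro n
        obtain ⟨m, hm, hmn⟩ := hP.exists_gt (max n (g i n))
        exact ⟨m, hm, (le_max_left _ _).trans_lt hmn, ((le_max_right _ _).trans_lt hmn).le⟩
      choose nx h1 h2 h3 using hex
      obtain ⟨sq, hsq⟩ : ∃ sq : ℕ → ℕ, sq = fun k => nx^[k + 1] 0 := ⟨_, rfl⟩
      have hs : ∀ k, sq (k + 1) = nx (sq k) := by
        intro k
        rw [hsq]
        exact Function.iterate_succ_apply' nx (k + 1) 0
      have hs0 : sq 0 = nx 0 := by rw [hsq]; rfl
      have hsm : StrictMono sq := strictMono_nat_of_lt_succ (fun k => by rw [hs]; exact h2 _)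
      refine ⟨Set.range sq, ?_, Set.infinite_range_of_injective hsm.injective, 0, ?_⟩
      · rintro _ ⟨k, rfl⟩
        cases k with
        | zero => rw [hs0]; exact h1 _
        | succ k => rw [hs]; exact h1 _
      · rintro _ ⟨a, rfl⟩ _ _ ⟨b, rfl⟩ hab
        have hab' : a < b := hsm.lt_iff_lt.1 hab
        calc g i (sq a) ≤ nx (sq a) := h3 _
          _ = sq (a + 1) := (hs a).symm
          _ ≤ sq b := hsm.monotone hab')
  have hex : ∀ n : ℕ, ∃ q p : ℕ, p ∈ P ∧ q ∈ P ∧ n ≤ p ∧ p < q := by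
    intro n
    obtain ⟨p, hp, hnp⟩ := hP.exists_gt n
    obtain ⟨q, hq, hpq⟩ := hP.exists_gt p
    exact ⟨q, p, hp, hq, hnp.le, hpq⟩
  choose h p hp hq hnp hpq using hex
  refine ⟨h, fun i => ?_⟩
  obtain ⟨N, hN⟩ := hPD i
  refine (Set.finite_lt_nat N).subset ?_
  intro n hn
  by_contra hnN
  have hnN' : N ≤ n := not_lt.1 hnN
  have h1 := hN (p n) (hp n) (hnN'.trans (hnp n)) (h n) (hq n) (hpq n)
  have h2 := hfg i n
  have h3 := hmono i n (p n) (hnp n)
  have h4 : h n < f i n := hn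
  omega


end STL_BL


/-! ### TL_SL -/

section STL_SL



theorem TL_SL {κ : Cardinal.{0}} (h : TL κ) : SL κ := by
  intro ι S hι
  refine distributive κ h ι hι
    (fun i => {A | (A ∩ S i).Finite ∨ (A \ S i).Finite}) ?_ ?_
  · intro i P hP Q _ hQ
    rcases hP with hP | hP
    · left
      refine (hP.union hQ).subset ?_
      rintro x ⟨hx, hxS⟩
      by_cases hxP : x ∈ P
      · exact Or.inl ⟨hxP, hxS⟩
      · exact Or.inr ⟨hx, hxP⟩
    · right
      refine (hP.union hQ).subset ?_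
      rintro x ⟨hx, hxS⟩
      by_cases hxP : x ∈ P
      · exact Or.inl ⟨hxP, hxS⟩
      · exact Or.inr ⟨hx, hxP⟩
  · intro i P hP
    by_cases hf : (P ∩ S i).Finite
    · exact ⟨P, subset_rfl, hP, Or.inl hf⟩
    · refine ⟨P ∩ S i, Set.inter_subset_left, hf, Or.inr ?_⟩
      have : (P ∩ S i) \ S i = ∅ := by
        ext x
        simp
      rw [this]
      exact Set.finite_empty

end STL_SL


/-! ### TL_fin -/

section STL_fin



theorem TL_fin_AS_refl (A : Set ℕ) : AS A A := by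
  unfold AS
  simp

theorem TL_fin_AS_trans {A B C : Set ℕ} (h1 : AS A B) (h2 : AS B C) : AS A C := by
  unfold AS at *
  refine (h1.union h2).subset ?_
  rintro x ⟨hxA, hxC⟩
  by_cases hxB : x ∈ B
  · exact Or.inr ⟨hxB, hxC⟩
  · exact Or.inl ⟨hxA, hxB⟩

theorem TL_fin_least {ι : Type} (A : ι → Set ℕ) (hl : ∀ i j, AS (A i) (A j) ∨ AS (A j) (A i))
    (s : Finset ι) (hs : s.Nonempty) : ∃ i0 ∈ s, ∀ i ∈ s, AS (A i0) (A i) := by
  induction hs using Finset.Nonempty.cons_induction with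
  | singleton a =>
    refine ⟨a, Finset.mem_singleton_self a, ?_⟩
    intro i hi
    rw [Finset.mem_singleton] at hi
    rw [hi]
    exact TL_fin_AS_refl _
  | cons a s ha hs ih =>
    obtain ⟨i0, hi0, hmin⟩ := ih
    rcases hl i0 a with h | h
    · refine ⟨i0, Finset.mem_cons_of_mem hi0, ?_⟩
      intro i hi
      rw [Finset.mem_cons] at hi
      rcases hi with hi | hi
      · rw [hi]; exact h
      · exact hmin i hi
    · refine ⟨a, Finset.mem_cons_self a s, ?_⟩
      intro i hi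
      rw [Finset.mem_cons] at hi
      rcases hi with hi | hi
      · rw [hi]; exact TL_fin_AS_refl _
      · exact TL_fin_AS_trans h (hmin i hi)

theorem TL_fin {κ : Cardinal.{0}} (h : κ < ℵ₀) : TL κ := by
  intro ι A hι hinf hl
  have hfin : Finite ι := by
    rw [← Cardinal.lt_aleph0_iff_finite]
    exact lt_of_le_of_lt hι h
  haveI := Fintype.ofFinite ι
  by_cases hne : Nonempty ι
  · obtain ⟨i0, _, hmin⟩ := TL_fin_least A hl Finset.univ Finset.univ_nonempty
    exact ⟨A i0, hinf i0, fun i => hmin i (Finset.mem_univ i)⟩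
  · refine ⟨Set.univ, Set.infinite_univ, fun i => absurd ⟨i⟩ hne⟩

end STL_fin


/-! ### decode -/

section Sdecode



theorem decode (X : Set ℝ) (hX : X.Nonempty) (U : Set (Set X)) (hU : Ta X U) :
    ∃ u : ℕ → Set X, Function.Injective u ∧ (∀ m, u m ∈ U) ∧ (∀ x : X, {m | x ∈ u m}.Infinite) ∧
      ∀ x y : X, AS {m | x ∈ u m} {m | y ∈ u m} ∨ AS {m | y ∈ u m} {m | x ∈ u m} := by
  classical
  obtain ⟨hcov, hinf, htau⟩ := hU
  obtain ⟨hopen, _, _⟩ := hcov
  have hWB : ∀ B : Set X, ∃ W : Set (Set X), W ⊆ {u ∈ U | B ⊆ u} ∧ W.Countable ∧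
      (({u ∈ U | B ⊆ u}.Infinite ∧ W.Infinite) ∨ W = {u ∈ U | B ⊆ u}) := by
    intro B
    by_cases hB : {u ∈ U | B ⊆ u}.Infinite
    · let e := hB.natEmbedding
      refine ⟨Set.range (fun n => ((e n : {u ∈ U | B ⊆ u}) : Set X)), ?_, Set.countable_range _, Or.inl ⟨hB, ?_⟩⟩
      · rintro _ ⟨n, rfl⟩
        exact (e n).2
      · exact Set.infinite_range_of_injective (Subtype.val_injective.comp e.injective)
    · rw [Set.not_infinite] at hB
      exact ⟨_, subset_rfl, hB.countable, Or.inr rfl⟩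
  choose WB hWB1 hWB2 hWB3 using hWB
  obtain ⟨W, hW⟩ : ∃ W : Set (Set X), W = ⋃ B ∈ TopologicalSpace.countableBasis X, WB B := ⟨_, rfl⟩
  have hWc : W.Countable := by
    rw [hW]
    exact (TopologicalSpace.countable_countableBasis X).biUnion (fun B _ => hWB2 B)
  have hWU : W ⊆ U := by
    rw [hW]
    intro u hu
    simp only [Set.mem_iUnion] at hu
    obtain ⟨B, _, hu⟩ := hu
    exact (hWB1 B hu).1
  have hbasis := TopologicalSpace.isBasis_countableBasis X
  have hWinf : ∀ x : X, {u ∈ W | x ∈ u}.Infinite := by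
    intro x
    by_cases hx : ∃ B ∈ TopologicalSpace.countableBasis X, x ∈ B ∧ (WB B).Infinite
    · obtain ⟨B, hB, hxB, hBinf⟩ := hx
      refine hBinf.mono ?_
      intro u hu
      refine ⟨?_, (hWB1 B hu).2 hxB⟩
      rw [hW]
      simp only [Set.mem_iUnion]
      exact ⟨B, hB, hu⟩
    · push Not at hx
      refine (hinf x).mono ?_
      rintro u ⟨huU, hxu⟩
      obtain ⟨B, hB, hxB, hBu⟩ := hbasis.exists_subset_of_mem_open hxu (hopen u huU)
      refine ⟨?_, hxu⟩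
      rw [hW]
      simp only [Set.mem_iUnion]
      refine ⟨B, hB, ?_⟩
      rcases hWB3 B with ⟨_, h2⟩ | h2
      · exact absurd (hx B hB hxB) (by
          intro h3
          first
          | exact h2 h3
          | exact (Set.not_infinite.mpr h3) h2)
      · rw [h2]
        exact ⟨huU, hBu⟩
  obtain ⟨r, hr⟩ := hX
  have hWinf' : W.Infinite := (hWinf ⟨r, hr⟩).mono (fun u hu => hu.1)
  have : Countable W := hWc.to_subtype
  have : Infinite W := hWinf'.to_subtype
  obtain ⟨hden⟩ := nonempty_denumerable W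
  let e : ℕ ≃ W := (Denumerable.eqv W).symm
  have hinj : Function.Injective (fun n => ((e n : W) : Set X)) := Subtype.val_injective.comp e.injective
  refine ⟨fun n => ((e n : W) : Set X), hinj, fun m => hWU (e m).2, ?_, ?_⟩
  · intro x hfin
    apply hWinf x
    refine (hfin.image (fun n => ((e n : W) : Set X))).subset ?_
    rintro u ⟨huW, hxu⟩
    refine ⟨e.symm ⟨u, huW⟩, ?_, ?_⟩
    · show x ∈ ((e (e.symm ⟨u, huW⟩) : W) : Set X)
      rw [Equiv.apply_symm_apply]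
      exact hxu
    · show ((e (e.symm ⟨u, huW⟩) : W) : Set X) = u
      rw [Equiv.apply_symm_apply]
  · intro x y
    rcases htau x y with h | h
    · left
      refine (h.preimage (f := fun n => ((e n : W) : Set X)) hinj.injOn).subset ?_
      rintro m ⟨h1, h2⟩
      exact ⟨hWU (e m).2, h1, h2⟩
    · right
      refine (h.preimage (f := fun n => ((e n : W) : Set X)) hinj.injOn).subset ?_
      rintro m ⟨h1, h2⟩
      exact ⟨hWU (e m).2, h1, h2⟩


end Sdecode


/-! ### encode -/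

section Sencode



theorem encode (ι : Type) [Nonempty ι] (A : ι → ℕ → ℕ → Prop) :
    ∃ (X : Set ℝ) (e : ι → X) (O : ℕ → ℕ → Set X), Function.Surjective e ∧
      (∀ n m, IsOpen (O n m)) ∧ ∀ i n m, e i ∈ O n m ↔ A i n m := by
  classical
  let a : ι → ℕ → Bool := fun i k => decide (A i (Nat.unpair k).1 (Nat.unpair k).2)
  let φ : (ℕ → Bool) → ℝ := fun b => (cantorSetHomeomorphNatToBool.symm b : ℝ)
  let X : Set ℝ := Set.range (fun i => φ (a i))
  have hX : X ⊆ cantorSet := by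
    rintro x ⟨i, rfl⟩
    exact (cantorSetHomeomorphNatToBool.symm (a i)).2
  let ψ : X → ℕ → Bool := fun x => cantorSetHomeomorphNatToBool (Set.inclusion hX x)
  have hψ : Continuous ψ := cantorSetHomeomorphNatToBool.continuous.comp (continuous_inclusion hX)
  let e : ι → X := fun i => ⟨φ (a i), i, rfl⟩
  have hψe : ∀ i, ψ (e i) = a i := by
    intro i
    have h1 : Set.inclusion hX (e i) = cantorSetHomeomorphNatToBool.symm (a i) := Subtype.ext rfl
    show cantorSetHomeomorphNatToBool (Set.inclusion hX (e i)) = a i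
    rw [h1, Homeomorph.apply_symm_apply]
  refine ⟨X, e, fun n m => {x | ψ x (Nat.pair n m) = true}, ?_, ?_, ?_⟩
  · rintro ⟨x, i, rfl⟩
    exact ⟨i, rfl⟩
  · intro n m
    have h2 : Continuous (fun x => ψ x (Nat.pair n m)) := (continuous_apply _).comp hψ
    exact (isOpen_discrete ({true} : Set Bool)).preimage h2
  · intro i n m
    show ψ (e i) (Nat.pair n m) = true ↔ A i n m
    rw [hψe]
    show decide (A i (Nat.unpair (Nat.pair n m)).1 (Nat.unpair (Nat.pair n m)).2) = true ↔ A i n m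
    rw [Nat.unpair_pair, decide_eq_true_iff]

end Sencode


/-! ### transfer -/

section Stransfer



theorem transfer_img {α β : Type} (φ : α → β) (G : Set α) (W : Set β) (h : φ '' G = W)
    (P : β → Prop) : {u | u ∈ W ∧ P u} = φ '' {p | p ∈ G ∧ P (φ p)} := by
  subst h
  ext u
  constructor
  · rintro ⟨⟨p, hp, rfl⟩, hP⟩
    exact ⟨p, ⟨hp, hP⟩, rfl⟩
  · rintro ⟨p, ⟨hp, hP⟩, rfl⟩
    exact ⟨⟨p, hp, rfl⟩, hP⟩

theorem transfer_fin {α β : Type} (φ : α → β) (hφ : Function.Injective φ) (G : Set α) (W : Set β)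
    (h : φ '' G = W) (P : β → Prop) :
    {u | u ∈ W ∧ P u}.Finite ↔ {p | p ∈ G ∧ P (φ p)}.Finite := by
  rw [transfer_img φ G W h P]
  exact Set.finite_image_iff hφ.injOn

theorem transfer_inf {α β : Type} (φ : α → β) (hφ : Function.Injective φ) (G : Set α) (W : Set β)
    (h : φ '' G = W) (P : β → Prop) :
    {u | u ∈ W ∧ P u}.Infinite ↔ {p | p ∈ G ∧ P (φ p)}.Infinite := by
  unfold Set.Infinite
  rw [transfer_fin φ hφ G W h P]

/-- the incidence relation used -/
def trA (ι : Type) (A : ι → ℕ → Set ℕ) : ι ⊕ (ℕ × ℕ) → ℕ → ℕ → Prop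
  | Sum.inl i, n, m => m ∈ A i n
  | Sum.inr p, n, m => (n, m) ≠ p

theorem transfer (ι : Type) (A : ι → ℕ → Set ℕ) (hinf : ∀ i n, (A i n).Infinite)
    (hcomp : ∀ n i j, AS (A i n) (A j n) ∨ AS (A j n) (A i n)) :
    ∃ X : Set ℝ, X.Nonempty ∧ #X ≤ max #ι ℵ₀ ∧
      (S1 Ta Ta X → ∃ g : ℕ → ℕ, (∀ i, {n | g n ∈ A i n}.Infinite) ∧
        ∀ i j, {n | g n ∈ A i n ∧ g n ∉ A j n}.Finite ∨ {n | g n ∈ A j n ∧ g n ∉ A i n}.Finite) ∧
      (S1 Ta Cov X → ∃ g : ℕ → ℕ, ∀ i, ∃ n, g n ∈ A i n) ∧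
      (Sfin Ta Ta X ∨ (Sfin Ga Ta X ∧ ∀ i n, (A i n)ᶜ.Finite) →
        ∃ G : Set (ℕ × ℕ), (∀ n, {m | (n, m) ∈ G}.Finite) ∧ G.Infinite ∧
          (∀ p : ℕ × ℕ, {q ∈ G | q ≠ p}.Infinite) ∧
          (∀ i, {p ∈ G | p.2 ∈ A i p.1}.Infinite) ∧
          ∀ i j, {p ∈ G | p.2 ∈ A i p.1 ∧ p.2 ∉ A j p.1}.Finite ∨
            {p ∈ G | p.2 ∈ A j p.1 ∧ p.2 ∉ A i p.1}.Finite) := by
  obtain ⟨X, e, O, he, hO, hA⟩ := encode (ι ⊕ (ℕ × ℕ)) (trA ι A)
  have hl : ∀ i n m, e (Sum.inl i) ∈ O n m ↔ m ∈ A i n := fun i n m => hA (Sum.inl i) n m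
  have hr : ∀ p n m, e (Sum.inr p) ∈ O n m ↔ (n, m) ≠ p := fun p n m => hA (Sum.inr p) n m
  have hOinj : Function.Injective (fun p : ℕ × ℕ => O p.1 p.2) := by
    intro p q hpq
    have hpq' : O p.1 p.2 = O q.1 q.2 := hpq
    by_contra hne
    have h1 : e (Sum.inr q) ∈ O p.1 p.2 := (hr q p.1 p.2).2 hne
    rw [hpq', hr] at h1
    exact h1 rfl
  have hOn : ∀ n, Function.Injective (O n) := by
    intro n m m' h
    have := hOinj (a₁ := (n, m)) (a₂ := (n, m')) h
    exact (Prod.mk.inj this).2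
  have hOuniv : ∀ n m, O n m ≠ Set.univ := by
    intro n m h
    have h1 : e (Sum.inr (n, m)) ∈ O n m := by
      rw [h]
      exact Set.mem_univ _
    rw [hr] at h1
    exact h1 rfl
  -- infinitely many indices
  have hinf' : ∀ j n, {m | trA ι A j n m}.Infinite := by
    intro j n
    rcases j with i | p
    · exact hinf i n
    · refine Set.Infinite.mono (s := Set.Ioi p.2) ?_ (Set.Ioi_infinite p.2)
      intro m hm h
      have : m = p.2 := by rw [← h]
      have hm' : p.2 < m := hm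
      omega
  have hsing : ∀ (p : ℕ × ℕ) (n : ℕ) (Q : ℕ → Prop), {m | Q m ∧ ¬ trA ι A (Sum.inr p) n m}.Finite := by
    intro p n Q
    refine (Set.finite_singleton p.2).subset ?_
    rintro m ⟨-, h⟩
    have h' : (n, m) = p := not_not.1 h
    rw [Set.mem_singleton_iff, ← h']
  have hcomp' : ∀ n j j', {m | trA ι A j n m ∧ ¬ trA ι A j' n m}.Finite ∨
      {m | trA ι A j' n m ∧ ¬ trA ι A j n m}.Finite := by
    intro n j j'
    rcases j' with i' | p'
    · rcases j with i | p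
      · exact hcomp n i i'
      · exact Or.inr (hsing p n _)
    · exact Or.inl (hsing p' n _)
  have hrange : ∀ n, O n '' Set.univ = Set.range (O n) := fun n => Set.image_univ
  have hCov : ∀ n, Cov X (Set.range (O n)) := by
    intro n
    refine ⟨?_, ?_, ?_⟩
    · rintro u ⟨m, rfl⟩
      exact hO n m
    · intro x
      obtain ⟨j, rfl⟩ := he x
      obtain ⟨m, hm⟩ := (hinf' j n).nonempty
      exact ⟨O n m, ⟨m, rfl⟩, (hA j n m).2 hm⟩
    · rintro ⟨m, hm⟩
      exact hOuniv n m hm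
  have hTa : ∀ n, Ta X (Set.range (O n)) := by
    intro n
    refine ⟨hCov n, ?_, ?_⟩
    · intro x
      obtain ⟨j, rfl⟩ := he x
      refine (transfer_inf (O n) (hOn n) Set.univ _ (hrange n) (fun u => e j ∈ u)).2 ?_
      refine (hinf' j n).mono ?_
      intro m hm
      exact ⟨Set.mem_univ _, (hA j n m).2 hm⟩
    · intro x y
      obtain ⟨j, rfl⟩ := he x
      obtain ⟨j', rfl⟩ := he y
      rcases hcomp' n j j' with h | h
      · left
        refine (transfer_fin (O n) (hOn n) Set.univ _ (hrange n)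
          (fun u => e j ∈ u ∧ e j' ∉ u)).2 ?_
        refine h.subset ?_
        rintro m ⟨-, h1, h2⟩
        exact ⟨(hA j n m).1 h1, fun h3 => h2 ((hA j' n m).2 h3)⟩
      · right
        refine (transfer_fin (O n) (hOn n) Set.univ _ (hrange n)
          (fun u => e j' ∈ u ∧ e j ∉ u)).2 ?_
        refine h.subset ?_
        rintro m ⟨-, h1, h2⟩
        exact ⟨(hA j' n m).1 h1, fun h3 => h2 ((hA j n m).2 h3)⟩
  refine ⟨X, ⟨(e (Sum.inr (0, 0))).1, (e (Sum.inr (0, 0))).2⟩, ?_, ?_, ?_, ?_⟩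
  · have h1 : #X ≤ #(ι ⊕ (ℕ × ℕ)) := Cardinal.mk_le_of_surjective he
    have h2 : #(ι ⊕ (ℕ × ℕ)) = #ι + ℵ₀ := by
      simp
    rw [h2] at h1
    refine h1.trans ((Cardinal.add_le_max _ _).trans ?_)
    exact max_le le_rfl (le_max_right _ _)
  · intro hS
    obtain ⟨V, hV, hTV⟩ := hS (fun n => Set.range (O n)) hTa
    choose g hg using hV
    have hψ : Function.Injective (fun n => O n (g n)) := by
      intro n n' h
      exact (Prod.mk.inj (hOinj (a₁ := (n, g n)) (a₂ := (n', g n')) h)).1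
    have hVr : (fun n => O n (g n)) '' Set.univ = Set.range V := by
      rw [Set.image_univ]
      congr 1
      funext n
      exact hg n
    refine ⟨g, ?_, ?_⟩
    · intro i
      have h1 := (transfer_inf _ hψ Set.univ _ hVr (fun u => e (Sum.inl i) ∈ u)).1
        (hTV.2.1 (e (Sum.inl i)))
      refine h1.mono ?_
      rintro n ⟨-, hn⟩
      exact (hl i n (g n)).1 hn
    · intro i j
      rcases hTV.2.2 (e (Sum.inl i)) (e (Sum.inl j)) with h | h
      · left
        have h1 := (transfer_fin _ hψ Set.univ _ hVr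
          (fun u => e (Sum.inl i) ∈ u ∧ e (Sum.inl j) ∉ u)).1 h
        refine h1.subset ?_
        rintro n ⟨hn1, hn2⟩
        exact ⟨Set.mem_univ _, (hl i n (g n)).2 hn1, fun h3 => hn2 ((hl j n (g n)).1 h3)⟩
      · right
        have h1 := (transfer_fin _ hψ Set.univ _ hVr
          (fun u => e (Sum.inl j) ∈ u ∧ e (Sum.inl i) ∉ u)).1 h
        refine h1.subset ?_
        rintro n ⟨hn1, hn2⟩
        exact ⟨Set.mem_univ _, (hl j n (g n)).2 hn1, fun h3 => hn2 ((hl i n (g n)).1 h3)⟩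
  · intro hS
    obtain ⟨V, hV, hTV⟩ := hS (fun n => Set.range (O n)) hTa
    choose g hg using hV
    refine ⟨g, fun i => ?_⟩
    obtain ⟨u, ⟨n, rfl⟩, hu⟩ := hTV.2.1 (e (Sum.inl i))
    refine ⟨n, ?_⟩
    rw [← hg n, hl] at hu
    exact hu
  · intro hS
    obtain ⟨F, hF, hTF⟩ : ∃ F : ℕ → Set (Set X),
        (∀ n, (F n).Finite ∧ F n ⊆ Set.range (O n)) ∧ Ta X (⋃ n, F n) := by
      rcases hS with h | ⟨h, hcof⟩
      · exact h (fun n => Set.range (O n)) hTa
      · refine h (fun n => Set.range (O n)) (fun n => ⟨hCov n, Set.infinite_range_of_injective (hOn n), ?_⟩)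
        intro x
        obtain ⟨j, rfl⟩ := he x
        refine (transfer_fin (O n) (hOn n) Set.univ _ (hrange n) (fun u => e j ∉ u)).2 ?_
        rcases j with i | p
        · refine (hcof i n).subset ?_
          rintro m ⟨-, h1⟩
          exact fun h2 => h1 ((hl i n m).2 h2)
        · refine (hsing p n (fun _ => True)).subset ?_
          rintro m ⟨-, h1⟩
          exact ⟨trivial, fun h2 => h1 ((hA (Sum.inr p) n m).2 h2)⟩
    have hG : (fun p : ℕ × ℕ => O p.1 p.2) '' {p : ℕ × ℕ | O p.1 p.2 ∈ F p.1} = ⋃ n, F n := by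
      ext u
      constructor
      · rintro ⟨p, hp, rfl⟩
        exact Set.mem_iUnion.2 ⟨p.1, hp⟩
      · intro hu
        obtain ⟨n, hn⟩ := Set.mem_iUnion.1 hu
        obtain ⟨m, rfl⟩ := (hF n).2 hn
        exact ⟨(n, m), hn, rfl⟩
    have hne : ∀ p : ℕ × ℕ, {q | q ∈ {p : ℕ × ℕ | O p.1 p.2 ∈ F p.1} ∧ q ≠ p}.Infinite := by
      intro p
      have h1 := (transfer_inf _ hOinj _ _ hG (fun u => e (Sum.inr p) ∈ u)).1
        (hTF.2.1 (e (Sum.inr p)))
      refine h1.mono ?_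
      rintro q ⟨hq, hq2⟩
      exact ⟨hq, (hr p q.1 q.2).1 hq2⟩
    refine ⟨{p : ℕ × ℕ | O p.1 p.2 ∈ F p.1}, ?_, ?_, hne, ?_, ?_⟩
    · intro n
      have h1 : ((O n) ⁻¹' (F n)).Finite := (hF n).1.preimage (hOn n).injOn
      exact h1
    · exact (hne (0, 0)).mono fun q hq => hq.1
    · intro i
      have h1 := (transfer_inf _ hOinj _ _ hG (fun u => e (Sum.inl i) ∈ u)).1
        (hTF.2.1 (e (Sum.inl i)))
      refine h1.mono ?_
      rintro q ⟨hq, hq2⟩
      exact ⟨hq, (hl i q.1 q.2).1 hq2⟩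
    · intro i j
      rcases hTF.2.2 (e (Sum.inl i)) (e (Sum.inl j)) with h | h
      · left
        have h1 := (transfer_fin _ hOinj _ _ hG
          (fun u => e (Sum.inl i) ∈ u ∧ e (Sum.inl j) ∉ u)).1 h
        refine h1.subset ?_
        rintro q ⟨hq, hq1, hq2⟩
        exact ⟨hq, (hl i q.1 q.2).2 hq1, fun h3 => hq2 ((hl j q.1 q.2).1 h3)⟩
      · right
        have h1 := (transfer_fin _ hOinj _ _ hG
          (fun u => e (Sum.inl j) ∈ u ∧ e (Sum.inl i) ∉ u)).1 h
        refine h1.subset ?_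
        rintro q ⟨hq, hq1, hq2⟩
        exact ⟨hq, (hl j q.1 q.2).2 hq1, fun h3 => hq2 ((hl i q.1 q.2).1 h3)⟩

end Stransfer


/-! ### L1 -/

section SL1



-- posted as a separate job
theorem L1 {κ : Cardinal.{0}} (hT : TL κ) (hB : BL κ) (X : Set ℝ) (hX : X.Nonempty)
    (hκ : #X ≤ κ) : S1 Ta Ta X := by
  intro U hU
  choose u hinj hmem hinf hlin using fun n => decode X hX (U n) (hU n)
  have hP : ∀ n, ∃ P : Set ℕ, P.Infinite ∧ ∀ x : X, AS P {m | x ∈ u n m} := fun n =>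
    hT X (fun x => {m | x ∈ u n m}) hκ (hinf n) (hlin n)
  choose P hPinf hPas using hP
  have hf : ∀ (x : X) (n : ℕ), ∃ M : ℕ, ∀ m ∈ P n, x ∉ u n m → m ≤ M := by
    intro x n
    obtain ⟨M, hM⟩ := (hPas n x).bddAbove
    exact ⟨M, fun m hm hx => hM ⟨hm, hx⟩⟩
  choose f hf using hf
  obtain ⟨h, hh⟩ := hB X f hκ
  have hg : ∀ n, ∃ b ∈ P n, h n < b := fun n => (hPinf n).exists_gt (h n)
  choose g hgP hgh using hg
  have hfin : ∀ x : X, {n | x ∉ u n (g n)}.Finite := by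
    intro x
    refine (hh x).subset ?_
    intro n hn
    show h n < f x n
    exact lt_of_lt_of_le (hgh n) (hf x n (g n) (hgP n) hn)
  have hVU : ∀ n, u n (g n) ∈ U n := fun n => hmem n (g n)
  have hex : ∀ (x : X) (S : Set ℕ), S.Infinite → ∃ n ∈ S, x ∈ u n (g n) := by
    intro x S hS
    by_contra hcon
    push Not at hcon
    exact hS ((hfin x).subset fun n hn => hcon n hn)
  have huniv : ∀ n, u n (g n) ≠ Set.univ := by
    intro n he
    have := hVU n
    rw [he] at this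
    exact (hU n).1.2.2 this
  have hfinx : ∀ x : X, {v ∈ Set.range (fun n => u n (g n)) | x ∉ v}.Finite := by
    intro x
    refine ((hfin x).image (fun n => u n (g n))).subset ?_
    rintro v ⟨⟨n, rfl⟩, hx⟩
    exact ⟨n, hx, rfl⟩
  have hrange : (Set.range (fun n => u n (g n))).Infinite := by
    intro hF
    have : Finite (Set.range (fun n => u n (g n))) := hF
    obtain ⟨y, hy⟩ := Finite.exists_infinite_fiber (Set.rangeFactorization (fun n => u n (g n)))
    have hy2 : (Set.rangeFactorization (fun n => u n (g n)) ⁻¹' {y}).Infinite :=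
      Set.infinite_coe_iff.1 hy
    have hy3 : ∀ n ∈ (Set.rangeFactorization (fun n => u n (g n)) ⁻¹' {y}), u n (g n) = y.1 := by
      intro n hn
      have : Set.rangeFactorization (fun n => u n (g n)) n = y := hn
      rw [← this]
      rfl
    obtain ⟨n, hn⟩ := hy2.nonempty
    apply huniv n
    rw [Set.eq_univ_iff_forall]
    intro x
    obtain ⟨n', hn', hx⟩ := hex x _ hy2
    rw [hy3 n hn, ← hy3 n' hn']
    exact hx
  refine ⟨fun n => u n (g n), hVU, ⟨?_, ?_, ?_⟩, ?_, ?_⟩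
  · rintro v ⟨n, rfl⟩
    exact (hU n).1.1 _ (hVU n)
  · intro x
    obtain ⟨n, -, hn⟩ := hex x Set.univ Set.infinite_univ
    exact ⟨_, ⟨n, rfl⟩, hn⟩
  · rintro ⟨n, hn⟩
    exact huniv n hn
  · intro x
    intro hF
    apply hrange
    refine (hF.union (hfinx x)).subset ?_
    intro v hv
    by_cases hx : x ∈ v
    · left; exact ⟨hv, hx⟩
    · right; exact ⟨hv, hx⟩
  · intro x y
    left
    refine (hfinx y).subset ?_
    rintro v ⟨hv, -, hy⟩
    exact ⟨hv, hy⟩

end SL1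


/-! ### L2 -/

section SL2



theorem L2 {κ : Cardinal.{0}} (hS : SL κ) (hB : BL κ) (hκ0 : ℵ₀ ≤ κ) (X : Set ℝ)
    (hX : X.Nonempty) (hκ : #X ≤ κ) : Sfin Ta Ta X := by
  classical
  intro U hU
  choose u hinj hmem hinf hcmp using fun n => decode X hX (U n) (hU n)
  have hcard : #(X × X) ≤ κ := by
    rw [Cardinal.mk_prod, Cardinal.lift_id]
    calc #X * #X ≤ κ * κ := mul_le_mul' hκ hκ
      _ = κ := Cardinal.mul_eq_self hκ0
  -- bound (a)
  have h0 : ∀ n : ℕ, ∃ b : ℕ, ∀ m, b ≤ m → ∀ j, j < n →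
      u n m ≠ u (Nat.unpair j).1 (Nat.unpair j).2 := by
    intro n
    have hfin : {m | ∃ j, j < n ∧ u n m = u (Nat.unpair j).1 (Nat.unpair j).2}.Finite := by
      have hsub : {m | ∃ j, j < n ∧ u n m = u (Nat.unpair j).1 (Nat.unpair j).2} ⊆
          ⋃ j ∈ Set.Iio n, {m | u n m = u (Nat.unpair j).1 (Nat.unpair j).2} := by
        rintro m ⟨j, hj, hm⟩
        simp only [Set.mem_iUnion]
        exact ⟨j, hj, hm⟩
      refine Set.Finite.subset (Set.Finite.biUnion (Set.finite_Iio n) ?_) hsub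
      intro j _
      refine Set.Subsingleton.finite ?_
      intro m hm m' hm'
      exact hinj n ((hm : u n m = _).trans (hm' : u n m' = _).symm)
    obtain ⟨b, hb⟩ := hfin.bddAbove
    refine ⟨b + 1, fun m hm j hj he => ?_⟩
    have : m ≤ b := hb ⟨j, hj, he⟩
    omega
  choose b0 hb0 using h0
  -- bound (b)
  have hf : ∀ p : X × X, ∀ n : ℕ, ∃ b : ℕ, AS {m | p.1 ∈ u n m} {m | p.2 ∈ u n m} →
      ∀ m, b ≤ m → p.1 ∈ u n m → p.2 ∈ u n m := by
    intro p n
    by_cases hp : AS {m | p.1 ∈ u n m} {m | p.2 ∈ u n m}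
    · obtain ⟨b, hb⟩ := Set.Finite.bddAbove hp
      refine ⟨b + 1, fun _ m hm h1 => ?_⟩
      by_contra h2
      have : m ≤ b := hb ⟨h1, h2⟩
      omega
    · exact ⟨0, fun h => absurd h hp⟩
  choose f hf using hf
  obtain ⟨h1, hh1⟩ := hB (X × X) f hcard
  set h : ℕ → ℕ := fun n => max (b0 n) (h1 n) with hh
  have hg : ∀ x : X, ∀ n : ℕ, ∃ m, h n ≤ m ∧ x ∈ u n m := by
    intro x n
    obtain ⟨m, hm, hlt⟩ := (hinf n x).exists_gt (h n)
    exact ⟨m, hlt.le, hm⟩
  choose g hg1 hg2 using hg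
  obtain ⟨h2, hh2⟩ := hB X (fun x n => g x n + 1) hκ
  obtain ⟨S, hSinf, hS'⟩ := hS (X × X) (fun p => {n | AS {m | p.1 ∈ u n m} {m | p.2 ∈ u n m}}) hcard
  set F : ℕ → Set (Set X) := fun n => if n ∈ S then (u n) '' (Set.Ico (h n) (h2 n)) else ∅ with hF
  have hFfin : ∀ n, (F n).Finite := by
    intro n
    simp only [hF]
    split_ifs
    · exact (Set.finite_Ico _ _).image _
    · exact Set.finite_empty
  have hFmem : ∀ n V, V ∈ F n → n ∈ S ∧ ∃ m, h n ≤ m ∧ m < h2 n ∧ u n m = V := by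
    intro n V hV
    simp only [hF] at hV
    split_ifs at hV with hn
    · obtain ⟨m, hm, rfl⟩ := hV
      exact ⟨hn, m, hm.1, hm.2, rfl⟩
    · exact absurd hV (Set.notMem_empty _)
  have hFsub : ∀ n, F n ⊆ U n := by
    intro n V hV
    obtain ⟨_, m, _, _, rfl⟩ := hFmem n V hV
    exact hmem n m
  -- each point is in infinitely many members
  have hinfF : ∀ x : X, {V ∈ ⋃ n, F n | x ∈ V}.Infinite := by
    intro x hfin
    -- every member is some W j
    have hW : ∀ V ∈ {V ∈ ⋃ n, F n | x ∈ V}, ∃ j, V = u (Nat.unpair j).1 (Nat.unpair j).2 := by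
      rintro V ⟨hV, _⟩
      obtain ⟨n, hn⟩ := Set.mem_iUnion.mp hV
      obtain ⟨_, m, _, _, rfl⟩ := hFmem n V hn
      exact ⟨Nat.pair n m, by simp⟩
    choose! jj hjj using hW
    obtain ⟨B, hB'⟩ := (hfin.image jj).bddAbove
    obtain ⟨B2, hB2⟩ := (hh2 x).bddAbove
    obtain ⟨n, hnS, hn⟩ := hSinf.exists_gt (max B B2)
    have hn2 : g x n + 1 ≤ h2 n := by
      by_contra hc
      have : n ≤ B2 := hB2 (show n ∈ {n | h2 n < g x n + 1} from not_le.mp hc)
      have := le_max_right B B2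
      omega
    have hmemF : u n (g x n) ∈ {V ∈ ⋃ n, F n | x ∈ V} := by
      refine ⟨Set.mem_iUnion.mpr ⟨n, ?_⟩, hg2 x n⟩
      simp only [hF, hnS, if_true]
      exact ⟨g x n, ⟨hg1 x n, by omega⟩, rfl⟩
    have hj := hjj _ hmemF
    have hjB : jj (u n (g x n)) ≤ B := hB' ⟨_, hmemF, rfl⟩
    have hlt : jj (u n (g x n)) < n := by
      have := le_max_left B B2
      omega
    exact hb0 n (g x n) (le_trans (le_max_left _ _) (hg1 x n)) _ hlt hj
  -- one sided comparability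
  have hone : ∀ x y : X, (S \ {n | AS {m | x ∈ u n m} {m | y ∈ u n m}}).Finite →
      {V ∈ ⋃ n, F n | x ∈ V ∧ y ∉ V}.Finite := by
    intro x y hfin
    obtain ⟨B1, hB1⟩ := hfin.bddAbove
    obtain ⟨B2, hB2⟩ := (hh1 (x, y)).bddAbove
    have hsub : {V ∈ ⋃ n, F n | x ∈ V ∧ y ∉ V} ⊆ ⋃ n ∈ Set.Iic (max B1 B2), F n := by
      rintro V ⟨hV, hxV, hyV⟩
      obtain ⟨n, hn⟩ := Set.mem_iUnion.mp hV
      obtain ⟨hnS, m, hm1, hm2, rfl⟩ := hFmem n V hn
      simp only [Set.mem_iUnion]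
      refine ⟨n, ?_, hn⟩
      by_contra hc
      have hc' : max B1 B2 < n := not_le.mp hc
      have hE : AS {m | x ∈ u n m} {m | y ∈ u n m} := by
        by_contra hE
        have : n ≤ B1 := hB1 ⟨hnS, hE⟩
        have := le_max_left B1 B2
        omega
      have hle : f (x, y) n ≤ h1 n := by
        by_contra hcc
        have : n ≤ B2 := hB2 (show n ∈ {n | h1 n < f (x, y) n} from not_le.mp hcc)
        have := le_max_right B1 B2
        omega
      exact hyV (hf (x, y) n hE m (le_trans hle (le_trans (le_max_right _ _) hm1)) hxV)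
    exact Set.Finite.subset (Set.Finite.biUnion (Set.finite_Iic _) (fun n _ => hFfin n)) hsub
  refine ⟨F, fun n => ⟨hFfin n, hFsub n⟩, ⟨?_, ?_, ?_⟩, hinfF, ?_⟩
  · intro V hV
    obtain ⟨n, hn⟩ := Set.mem_iUnion.mp hV
    exact (hU n).1.1 V (hFsub n hn)
  · intro x
    obtain ⟨V, hV, hxV⟩ := (hinfF x).nonempty
    exact ⟨V, hV, hxV⟩
  · intro hV
    obtain ⟨n, hn⟩ := Set.mem_iUnion.mp hV
    exact (hU n).1.2.2 (hFsub n hn)
  · intro x y
    rcases hS' (x, y) with h3 | h3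
    · right
      refine hone y x (h3.subset ?_)
      rintro n ⟨hnS, hn⟩
      refine ⟨hnS, ?_⟩
      rcases hcmp n x y with h4 | h4
      · exact h4
      · exact absurd h4 hn
    · left
      exact hone x y h3

end SL2


/-! ### L3 -/

section SL3



theorem L3 {κ : Cardinal.{0}} (hB : BL κ) (X : Set ℝ) (hX : X.Nonempty)
    (hκ : #X ≤ κ) : Sfin Ga Ta X := by
  intro U hU
  let e : ∀ n, ℕ ↪ (U n) := fun n => (hU n).2.1.natEmbedding
  let u : ℕ → ℕ → Set X := fun n m => (e n m : Set X)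
  have hinj : ∀ n, Function.Injective (u n) := fun n => Subtype.val_injective.comp (e n).injective
  have hmem : ∀ n m, u n m ∈ U n := fun n m => (e n m).2
  have hfin : ∀ (x : X) (n : ℕ), {m | x ∉ u n m}.Finite := by
    intro x n
    have h1 := (hU n).2.2 x
    refine (h1.preimage (f := u n) ((hinj n).injOn)).subset ?_
    intro m hm
    exact ⟨hmem n m, hm⟩
  have hbd : ∀ (x : X) (n : ℕ), ∃ b : ℕ, ∀ m, b ≤ m → x ∈ u n m := by
    intro x n
    obtain ⟨b, hb⟩ := (hfin x n).bddAbove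
    refine ⟨b + 1, fun m hm => ?_⟩
    by_contra hx
    have := hb (show m ∈ {m | x ∉ u n m} from hx)
    omega
  choose f hf using hbd
  obtain ⟨h, hh⟩ := hB X f hκ
  let V : ℕ → Set X := fun n => u n (h n)
  have hV : ∀ x : X, {n | x ∉ V n}.Finite := by
    intro x
    refine (hh x).subset ?_
    intro n hn
    by_contra hc
    simp only [Set.mem_setOf_eq, not_lt] at hc
    exact hn (hf x n (h n) hc)
  have hVx : ∀ x : X, {w ∈ Set.range V | x ∉ w}.Finite := by
    intro x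
    refine ((hV x).image V).subset ?_
    rintro w ⟨⟨n, rfl⟩, hn⟩
    exact ⟨n, hn, rfl⟩
  have huniv : ∀ n, V n ≠ Set.univ := by
    intro n hn
    exact (hU n).1.2.2 (hn ▸ hmem n (h n))
  have hrange : (Set.range V).Infinite := by
    intro hfinr
    have hpig : ∃ w : Set X, {n | V n = w}.Infinite := by
      by_contra hcon
      push Not at hcon
      have h2 : (⋃ w ∈ Set.range V, {n | V n = w}).Finite :=
        hfinr.biUnion (fun w _ => by
          have := hcon w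
          first
            | exact this
            | exact Set.not_infinite.mp this)
      have h3 : (⋃ w ∈ Set.range V, {n | V n = w}) = Set.univ := by
        ext n
        simp
      rw [h3] at h2
      exact Set.infinite_univ h2
    obtain ⟨w, hw⟩ := hpig
    have hwu : w = Set.univ := by
      ext x
      simp only [Set.mem_univ, iff_true]
      obtain ⟨n, hn, hn2⟩ := hw.exists_notMem_finite (hV x)
      simp only [Set.mem_setOf_eq, not_not] at hn hn2
      rw [← hn]; exact hn2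
    obtain ⟨n, hn⟩ := hw.nonempty
    exact huniv n (hn.trans hwu)
  have hUn : (⋃ n, ({V n} : Set (Set X))) = Set.range V := by
    ext w
    simp [eq_comm]
  refine ⟨fun n => {V n}, fun n => ⟨Set.finite_singleton _, ?_⟩, ?_⟩
  · rw [Set.singleton_subset_iff]; exact hmem n (h n)
  · rw [hUn]
    refine ⟨⟨?_, ?_, ?_⟩, ?_, ?_⟩
    · rintro w ⟨n, rfl⟩
      exact (hU n).1.1 _ (hmem n (h n))
    · intro x
      obtain ⟨n, hn⟩ := (hV x).exists_notMem
      simp only [Set.mem_setOf_eq, not_not] at hn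
      exact ⟨V n, ⟨n, rfl⟩, hn⟩
    · rintro ⟨n, hn⟩
      exact huniv n hn
    · intro x hfx
      apply hrange
      refine (hfx.union (hVx x)).subset ?_
      intro w hw
      by_cases hxw : x ∈ w
      · exact Or.inl ⟨hw, hxw⟩
      · exact Or.inr ⟨hw, hxw⟩
    · intro x y
      left
      refine (hVx y).subset ?_
      rintro w ⟨hw, _, hy⟩
      exact ⟨hw, hy⟩


end SL3


/-! ### L4 -/

section SL4



theorem AS.tr {A B C : Set ℕ} (h1 : AS A B) (h2 : AS B C) : AS A C := by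
  refine (Set.Finite.union h1 h2).subset ?_
  intro n hn
  by_cases hB : n ∈ B
  · exact Or.inr ⟨hB, hn.2⟩
  · exact Or.inl ⟨hn.1, hB⟩

theorem AS.inf {A B : Set ℕ} (h1 : AS A B) (h2 : A.Infinite) : B.Infinite := by
  intro hB
  apply h2
  refine (Set.Finite.union h1 hB).subset ?_
  intro n hn
  by_cases hB : n ∈ B
  · exact Or.inr hB
  · exact Or.inl ⟨hn, hB⟩

theorem L4_aux {Y : Type} (A : Y → Set ℕ) (hA : ∀ x y, AS (A x) (A y) ∨ AS (A y) (A x))
    (F : Finset Y) : ∃ C : Set ℕ, (C = Set.univ ∨ ∃ x, C = A x) ∧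
      AS C {m | ∀ x ∈ F, m ∈ A x} ∧ AS {m | ∀ x ∈ F, m ∈ A x} C := by
  classical
  induction F using Finset.induction_on with
  | empty =>
    refine ⟨Set.univ, Or.inl rfl, ?_, ?_⟩
    · unfold AS; simp
    · unfold AS; simp
  | insert x F hx ih =>
    obtain ⟨C, hC, h1, h2⟩ := ih
    have hcmp : AS (A x) C ∨ AS C (A x) := by
      rcases hC with rfl | ⟨y, rfl⟩
      · left; unfold AS; simp
      · exact hA x y
    rcases hcmp with h | h
    · refine ⟨A x, Or.inr ⟨x, rfl⟩, ?_, ?_⟩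
      · refine (Set.Finite.union h h1).subset ?_
        rintro n ⟨hn1, hn2⟩
        by_cases hnC : n ∈ C
        · refine Or.inr ⟨hnC, fun hn3 => hn2 ?_⟩
          intro z hz
          rcases Finset.mem_insert.1 hz with rfl | hz
          · exact hn1
          · exact hn3 z hz
        · exact Or.inl ⟨hn1, hnC⟩
      · refine Set.Finite.subset Set.finite_empty ?_
        rintro n ⟨hn1, hn2⟩
        exact hn2 (hn1 x (Finset.mem_insert_self _ _))
    · refine ⟨C, hC, ?_, ?_⟩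
      · refine (Set.Finite.union h h1).subset ?_
        rintro n ⟨hn1, hn2⟩
        by_cases hnx : n ∈ A x
        · refine Or.inr ⟨hn1, fun hn3 => hn2 ?_⟩
          intro z hz
          rcases Finset.mem_insert.1 hz with rfl | hz
          · exact hnx
          · exact hn3 z hz
        · exact Or.inl ⟨hn1, hnx⟩
      · refine Set.Finite.subset h2 ?_
        rintro n ⟨hn1, hn2⟩
        exact ⟨fun z hz => hn1 z (Finset.mem_insert_of_mem hz), hn2⟩

theorem L4 {κ : Cardinal.{0}} (hO : OL κ) (hκ0 : ℵ₀ ≤ κ) (X : Set ℝ) (hX : X.Nonempty)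
    (hκ : #X ≤ κ) : S1 Ta Om X := by

  classical
  intro U hU
  choose u hinj hmem hinf hcmp using fun n => decode X hX (U n) (hU n)
  have key := fun (n : ℕ) (F : Finset X) => L4_aux (fun x : X => {m | x ∈ u n m}) (hcmp n) F
  have hcard : #(Finset X) ≤ κ := by
    rcases finite_or_infinite X with hf | hf
    · exact (Cardinal.lt_aleph0_of_finite (Finset X)).le.trans hκ0
    · rw [Cardinal.mk_finset_of_infinite]; exact hκ
  obtain ⟨g, hg⟩ := hO (Finset X) (fun F n => {m | ∀ x ∈ F, m ∈ {m | x ∈ u n m}}) hcard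
    (by
      intro F n
      obtain ⟨C, hC, h1, h2⟩ := key n F
      refine h1.inf ?_
      rcases hC with rfl | ⟨x, rfl⟩
      · exact Set.infinite_univ
      · exact hinf n x)
    (by
      intro n F G
      obtain ⟨C, hC, h1, h2⟩ := key n F
      obtain ⟨C', hC', h1', h2'⟩ := key n G
      have hcc : AS C C' ∨ AS C' C := by
        rcases hC with rfl | ⟨x, rfl⟩
        · right; unfold AS; simp
        · rcases hC' with rfl | ⟨y, rfl⟩
          · left; unfold AS; simp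
          · exact hcmp n x y
      rcases hcc with h | h
      · left; exact (h2.tr h).tr h1'
      · right; exact (h2'.tr h).tr h1)
  refine ⟨fun n => u n (g n), fun n => hmem n (g n), ⟨⟨?_, ?_, ?_⟩, ?_⟩⟩
  · rintro _ ⟨n, rfl⟩
    exact (hU n).1.1 _ (hmem n (g n))
  · intro x
    obtain ⟨n, hn⟩ := hg {x}
    exact ⟨_, ⟨n, rfl⟩, hn x (Finset.mem_singleton_self x)⟩
  · rintro ⟨n, hn⟩
    have h1 := hmem n (g n)
    simp only at hn
    rw [hn] at h1
    exact (hU n).1.2.2 h1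
  · intro F
    obtain ⟨n, hn⟩ := hg F
    exact ⟨_, ⟨n, rfl⟩, fun x hx => hn x hx⟩

end SL4


/-! ### U1c -/

section SU1c



/-- the enlarged family -/
def TT' {ι : Type} (T : ι → Set ℕ) : ι ⊕ ℕ → Set ℕ
  | Sum.inl i => T i
  | Sum.inr k => {m | k < m}

theorem TT'_as {ι : Type} (A : Set ℕ) (k : ℕ) : AS A {m | k < m} := by
  refine (Set.finite_Iic k).subset ?_
  rintro m ⟨_, hm⟩
  have hm' : ¬ k < m := hm
  exact not_lt.1 hm'

theorem TT'_comp {ι : Type} (T : ι → Set ℕ) (hcomp : ∀ i j, AS (T i) (T j) ∨ AS (T j) (T i))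
    (x y : ι ⊕ ℕ) : AS (TT' T x) (TT' T y) ∨ AS (TT' T y) (TT' T x) := by
  rcases x with i | k
  · rcases y with j | l
    · exact hcomp i j
    · exact Or.inl (TT'_as (ι := ι) _ l)
  · exact Or.inr (TT'_as (ι := ι) _ k)

theorem TT'_inf {ι : Type} (T : ι → Set ℕ) (hinf : ∀ i, (T i).Infinite) (x : ι ⊕ ℕ) :
    (TT' T x).Infinite := by
  rcases x with i | k
  · exact hinf i
  · exact Set.Ioi_infinite k

theorem TT'_key {ι : Type} (T : ι → Set ℕ)
    (hno : ¬ ∃ P : Set ℕ, P.Infinite ∧ ∀ i, AS P (T i)) (g : ℕ → ℕ) (D : Set ℕ)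
    (hD : D.Infinite) (h : ∀ x, {n | n ∈ D ∧ g n ∉ TT' T x}.Finite) : False := by
  apply hno
  refine ⟨g '' D, ?_, fun i => ?_⟩
  · intro hfin
    obtain ⟨k, hk⟩ := hfin.bddAbove
    apply hD
    refine (h (Sum.inr k)).subset ?_
    intro n hn
    refine ⟨hn, ?_⟩
    show ¬ k < g n
    exact not_lt.2 (hk ⟨n, hn, rfl⟩)
  · refine ((h (Sum.inl i)).image g).subset ?_
    rintro _ ⟨⟨n, hn, rfl⟩, hm⟩
    exact ⟨n, ⟨hn, hm⟩, rfl⟩

open Classical in
/-- the family -/
noncomputable def AA' {ι : Type} (T : ι → Set ℕ) (p : (ι ⊕ ℕ) × Bool) (n : ℕ) : Set ℕ :=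
  if (Even n ↔ p.2 = true) then TT' T p.1 else Set.univ

theorem U1c (ι : Type) (T : ι → Set ℕ) (hinf : ∀ i, (T i).Infinite)
    (hcomp : ∀ i j, AS (T i) (T j) ∨ AS (T j) (T i))
    (hno : ¬ ∃ P : Set ℕ, P.Infinite ∧ ∀ i, AS P (T i)) :
    ∃ A : (ι ⊕ ℕ) × Bool → ℕ → Set ℕ, (∀ i n, (A i n).Infinite) ∧
      (∀ n i j, AS (A i n) (A j n) ∨ AS (A j n) (A i n)) ∧
      ¬ ∃ g : ℕ → ℕ, (∀ i, {n | g n ∈ A i n}.Infinite) ∧
        ∀ i j, {n | g n ∈ A i n ∧ g n ∉ A j n}.Finite ∨ {n | g n ∈ A j n ∧ g n ∉ A i n}.Finite := by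
  have hu : ∀ A : Set ℕ, AS A Set.univ := by
    intro A
    have : A \ Set.univ = ∅ := by simp
    unfold AS
    rw [this]
    exact Set.finite_empty
  refine ⟨AA' T, ?_, ?_, ?_⟩
  · intro p n
    unfold AA'
    split_ifs
    · exact TT'_inf T hinf _
    · exact Set.infinite_univ
  · intro n p q
    unfold AA'
    split_ifs
    · exact TT'_comp T hcomp _ _
    · exact Or.inl (hu _)
    · exact Or.inr (hu _)
    · exact Or.inl (hu _)
  · rintro ⟨g, _, hg⟩
    have h1 : ∀ x y : ι ⊕ ℕ, {n | n ∈ {n : ℕ | ¬ Even n} ∧ g n ∉ TT' T y}.Finite ∨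
        {n | n ∈ {n : ℕ | Even n} ∧ g n ∉ TT' T x}.Finite := by
      intro x y
      rcases hg (x, true) (y, false) with h | h
      · left
        refine h.subset ?_
        rintro n ⟨hn, hy⟩
        have hn' : ¬ Even n := hn
        refine ⟨?_, ?_⟩
        · unfold AA'
          rw [if_neg (by simpa using hn')]
          trivial
        · unfold AA'
          rw [if_pos (by simpa using hn')]
          exact hy
      · right
        refine h.subset ?_
        rintro n ⟨hn, hx⟩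
        have hn' : Even n := hn
        refine ⟨?_, ?_⟩
        · unfold AA'
          rw [if_neg (by simpa using hn')]
          trivial
        · unfold AA'
          rw [if_pos (by simpa using hn')]
          exact hx
    by_cases h2 : ∀ y : ι ⊕ ℕ, {n | n ∈ {n : ℕ | ¬ Even n} ∧ g n ∉ TT' T y}.Finite
    · refine TT'_key T hno g {n : ℕ | ¬ Even n} ?_ h2
      refine Set.infinite_of_injective_forall_mem (f := fun k : ℕ => 2 * k + 1) ?_ ?_
      · intro a b hab
        simp only at hab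
        omega
      · intro k
        show ¬ Even (2 * k + 1)
        rw [Nat.not_even_iff_odd]
        exact ⟨k, rfl⟩
    · have h3 : ∃ y : ι ⊕ ℕ, ¬ {n | n ∈ {n : ℕ | ¬ Even n} ∧ g n ∉ TT' T y}.Finite := by
        by_contra hcon
        exact h2 fun y => by
          by_contra hy
          exact hcon ⟨y, hy⟩
      obtain ⟨y, hy⟩ := h3
      refine TT'_key T hno g {n : ℕ | Even n} ?_ fun x => (h1 x y).resolve_left hy
      refine Set.infinite_of_injective_forall_mem (f := fun k : ℕ => 2 * k) ?_ ?_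
      · intro a b hab
        simp only at hab
        omega
      · intro k
        show Even (2 * k)
        exact even_two_mul k

end SU1c


/-! ### U2c -/

section SU2c



/-- the extended family -/
def U2T {ι : Type} (T : ι → Set ℕ) : ι ⊕ ℕ → Set ℕ
  | Sum.inl i => T i
  | Sum.inr k => {m | k < m}

theorem U2T_inf {ι : Type} (T : ι → Set ℕ) (hinf : ∀ i, (T i).Infinite) (j : ι ⊕ ℕ) :
    (U2T T j).Infinite := by
  cases j with
  | inl i => exact hinf i
  | inr k => exact Set.Ioi_infinite k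

theorem AS_tail (X : Set ℕ) (k : ℕ) : AS X {m | k < m} := by
  refine (Set.finite_Iic k).subset ?_
  intro m hm
  have h1 : ¬ (k < m) := hm.2
  exact not_lt.mp h1

theorem U2T_comp {ι : Type} (T : ι → Set ℕ) (hcomp : ∀ i j, AS (T i) (T j) ∨ AS (T j) (T i))
    (i j : ι ⊕ ℕ) : AS (U2T T i) (U2T T j) ∨ AS (U2T T j) (U2T T i) := by
  cases i with
  | inl i =>
    cases j with
    | inl j => exact hcomp i j
    | inr l => exact Or.inl (AS_tail _ l)
  | inr k => exact Or.inr (AS_tail _ k)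

theorem AS_univ' (X : Set ℕ) : AS X Set.univ := by
  unfold AS
  simp

open Classical in
/-- the family -/
noncomputable def U2A {ι κ : Type} (T : ι → Set ℕ) (S : κ → Set ℕ) :
    ((ι ⊕ ℕ) × κ × Bool) → ℕ → Set ℕ :=
  fun i n => if (n ∈ S i.2.1 ↔ i.2.2 = true) then U2T T i.1 else Set.univ

theorem U2c (ι κ : Type) (T : ι → Set ℕ) (hinf : ∀ i, (T i).Infinite)
    (hcomp : ∀ i j, AS (T i) (T j) ∨ AS (T j) (T i))
    (hno : ¬ ∃ P : Set ℕ, P.Infinite ∧ ∀ i, AS P (T i))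
    (S : κ → Set ℕ) (hS : ¬ ∃ A : Set ℕ, A.Infinite ∧ ∀ i, (A ∩ S i).Finite ∨ (A \ S i).Finite) :
    ∃ A : ((ι ⊕ ℕ) × κ × Bool) → ℕ → Set ℕ, (∀ i n, (A i n).Infinite) ∧
      (∀ n i j, AS (A i n) (A j n) ∨ AS (A j n) (A i n)) ∧
      ¬ ∃ G : Set (ℕ × ℕ), (∀ n, {m | (n, m) ∈ G}.Finite) ∧ G.Infinite ∧
          (∀ p : ℕ × ℕ, {q ∈ G | q ≠ p}.Infinite) ∧
          (∀ i, {p ∈ G | p.2 ∈ A i p.1}.Infinite) ∧
          ∀ i j, {p ∈ G | p.2 ∈ A i p.1 ∧ p.2 ∉ A j p.1}.Finite ∨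
            {p ∈ G | p.2 ∈ A j p.1 ∧ p.2 ∉ A i p.1}.Finite := by
  classical
  refine ⟨U2A T S, ?_, ?_, ?_⟩
  · intro i n
    unfold U2A
    split_ifs
    · exact U2T_inf T hinf _
    · exact Set.infinite_univ
  · intro n i j
    unfold U2A
    split_ifs
    · exact U2T_comp T hcomp _ _
    · exact Or.inl (AS_univ' _)
    · exact Or.inr (AS_univ' _)
    · exact Or.inl (AS_univ' _)
  · rintro ⟨G, hcol, hGinf, -, -, hcp⟩
    by_cases hW : ∃ j, {n | ∃ m, (n, m) ∈ G ∧ m ∉ U2T T j}.Infinite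
    · obtain ⟨j, hW⟩ := hW
      have h1 : ∃ a, ({n | ∃ m, (n, m) ∈ G ∧ m ∉ U2T T j} ∩ S a).Infinite ∧
          ({n | ∃ m, (n, m) ∈ G ∧ m ∉ U2T T j} \ S a).Infinite := by
        by_contra hcon
        push Not at hcon
        apply hS
        refine ⟨_, hW, fun a => ?_⟩
        by_cases hf : ({n | ∃ m, (n, m) ∈ G ∧ m ∉ U2T T j} ∩ S a).Finite
        · exact Or.inl hf
        · exact Or.inr (hcon a hf)
      obtain ⟨a, ha1, ha2⟩ := h1
      rcases hcp (j, a, true) (j, a, false) with h | h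
      · apply ha2
        refine (h.image Prod.fst).subset ?_
        rintro n ⟨⟨m, hm, hmT⟩, hnS⟩
        refine ⟨(n, m), ⟨hm, ?_, ?_⟩, rfl⟩
        · simp [U2A, hnS]
        · simp [U2A, hnS, hmT]
      · apply ha1
        refine (h.image Prod.fst).subset ?_
        rintro n ⟨⟨m, hm, hmT⟩, hnS⟩
        refine ⟨(n, m), ⟨hm, ?_, ?_⟩, rfl⟩
        · simp [U2A, hnS]
        · simp [U2A, hnS, hmT]
    · push Not at hW
      have hW' : ∀ j, {n | ∃ m, (n, m) ∈ G ∧ m ∉ U2T T j}.Finite := fun j => by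
        have := hW j
        first | exact this | exact Set.not_infinite.mp this
      have hbad : ∀ j, {p ∈ G | p.2 ∉ U2T T j}.Finite := by
        intro j
        have h2 : (⋃ n ∈ {n | ∃ m, (n, m) ∈ G ∧ m ∉ U2T T j},
            (fun m => (n, m)) '' {m | (n, m) ∈ G}).Finite :=
          (hW' j).biUnion (fun n _ => (hcol n).image _)
        refine h2.subset ?_
        rintro ⟨n, m⟩ ⟨hp, hpT⟩
        simp only [Set.mem_iUnion]
        exact ⟨n, ⟨m, hp, hpT⟩, m, hp, rfl⟩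
      apply hno
      refine ⟨Prod.snd '' G, ?_, ?_⟩
      · intro hfin
        obtain ⟨k, hk⟩ := hfin.bddAbove
        apply hGinf
        refine (hbad (Sum.inr k)).subset ?_
        intro p hp
        refine ⟨hp, ?_⟩
        have : p.2 ≤ k := hk ⟨p, hp, rfl⟩
        intro h3
        have h4 : k < p.2 := h3
        omega
      · intro i
        refine ((hbad (Sum.inl i)).image Prod.snd).subset ?_
        rintro m ⟨⟨p, hp, rfl⟩, hm⟩
        exact ⟨p, ⟨hp, hm⟩, rfl⟩

end SU2c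


/-! ### U3c -/

section SU3c



theorem U3c_D (ι : Type) (f F : ι → ℕ → ℕ) (hfF : ∀ i n s, n ≤ s → f i n ≤ F i s)
    (hno : ¬ ∃ h : ℕ → ℕ, ∀ i, {n | h n < f i n}.Finite) (H : Set (ℕ × ℕ))
    (hcol : ∀ n, {m | (n, m) ∈ H}.Finite) (hH : ∀ a, {p ∈ H | p.2 < F a p.1}.Finite) :
    H.Finite := by
  by_contra hinf
  apply hno
  have hex : ∀ n : ℕ, ∃ p : ℕ × ℕ, p ∈ H ∧ n ≤ p.1 := by
    intro n
    by_contra hcon
    push Not at hcon
    apply hinf
    have h1 : H ⊆ ⋃ k ∈ Finset.range n, (fun m => (k, m)) '' {m | (k, m) ∈ H} := by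
      intro p hp
      rw [Set.mem_iUnion₂]
      exact ⟨p.1, Finset.mem_range.mpr (hcon p hp), p.2, hp, rfl⟩
    refine Set.Finite.subset ?_ h1
    exact (Finset.range n).finite_toSet.biUnion fun k _ => (hcol k).image _
  choose q hq hqn using hex
  refine ⟨fun n => (q n).2, fun a => ?_⟩
  have hB := (hH a).image (fun p : ℕ × ℕ => p.1)
  obtain ⟨M, hM⟩ := hB.bddAbove
  refine (Set.finite_Iic M).subset ?_
  intro n hn
  have hn' : (q n).2 < f a n := hn
  have h1 : (q n).1 ≤ M := by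
    apply hM
    exact ⟨q n, ⟨hq n, lt_of_lt_of_le hn' (hfF a n _ (hqn n))⟩, rfl⟩
  exact (hqn n).trans h1

theorem U3c (ι : Type) (f : ι → ℕ → ℕ) (hno : ¬ ∃ h : ℕ → ℕ, ∀ i, {n | h n < f i n}.Finite) :
    ∃ A : (ι × ι × Bool) → ℕ → Set ℕ, (∀ i n, (A i n)ᶜ.Finite) ∧
      ¬ ∃ G : Set (ℕ × ℕ), (∀ n, {m | (n, m) ∈ G}.Finite) ∧ G.Infinite ∧
          (∀ p : ℕ × ℕ, {q ∈ G | q ≠ p}.Infinite) ∧
          (∀ i, {p ∈ G | p.2 ∈ A i p.1}.Infinite) ∧
          ∀ i j, {p ∈ G | p.2 ∈ A i p.1 ∧ p.2 ∉ A j p.1}.Finite ∨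
            {p ∈ G | p.2 ∈ A j p.1 ∧ p.2 ∉ A i p.1}.Finite := by
  classical
  obtain ⟨F, hF⟩ : ∃ F : ι → ℕ → ℕ, ∀ i n, F i n = (Finset.range (n + 1)).sup (f i) :=
    ⟨_, fun _ _ => rfl⟩
  have hfF : ∀ i n s, n ≤ s → f i n ≤ F i s := by
    intro i n s hns
    rw [hF]
    exact Finset.le_sup (Finset.mem_range.mpr (by omega))
  refine ⟨fun i n => {m | ¬ (m < F i.1 n ∧ (m < F i.2.1 n ↔ i.2.2 = true))}, ?_, ?_⟩
  · intro i n
    refine (Set.finite_lt_nat (F i.1 n)).subset ?_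
    intro m hm
    rw [Set.mem_compl_iff, Set.mem_ofPred_eq, not_not] at hm
    exact hm.1
  · rintro ⟨G, hcol, hinf, -, hcov, hcomp⟩
    have hcolsub : ∀ H ⊆ G, ∀ n, {m | (n, m) ∈ H}.Finite := fun H hH n =>
      (hcol n).subset fun m hm => hH hm
    have hc : ∀ c, {p ∈ G | p.2 < F c p.1}.Finite := by
      intro c
      -- comparison
      have hcmp : ∀ a a', {p ∈ G | p.2 < F a' p.1 ∧ ¬ p.2 < F c p.1}.Finite ∨
          {p ∈ G | p.2 < F a p.1 ∧ p.2 < F c p.1}.Finite := by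
        intro a a'
        rcases hcomp (a, c, true) (a', c, false) with h | h
        · left
          refine h.subset ?_
          rintro p ⟨hp, h1, h2⟩
          refine ⟨hp, ?_, ?_⟩
          · show ¬ (p.2 < F a p.1 ∧ (p.2 < F c p.1 ↔ true = true))
            rintro ⟨_, h3⟩
            exact h2 (h3.mpr rfl)
          · show ¬ ¬ (p.2 < F a' p.1 ∧ (p.2 < F c p.1 ↔ false = true))
            rw [not_not]
            exact ⟨h1, fun h3 => absurd h3 h2, fun h3 => by simp at h3⟩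
        · right
          refine h.subset ?_
          rintro p ⟨hp, h1, h2⟩
          refine ⟨hp, ?_, ?_⟩
          · show ¬ (p.2 < F a' p.1 ∧ (p.2 < F c p.1 ↔ false = true))
            rintro ⟨_, h3⟩
            have := h3.mp h2
            simp at this
          · show ¬ ¬ (p.2 < F a p.1 ∧ (p.2 < F c p.1 ↔ true = true))
            rw [not_not]
            exact ⟨h1, fun _ => rfl, fun _ => h2⟩
      by_cases hX : ∀ a', {p ∈ G | p.2 < F a' p.1 ∧ ¬ p.2 < F c p.1}.Finite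
      · exfalso
        have h1 := U3c_D ι f F hfF hno {p ∈ G | ¬ p.2 < F c p.1}
          (hcolsub _ fun p hp => hp.1) (by
            intro a
            refine (hX a).subset ?_
            rintro p ⟨⟨hp, h2⟩, h3⟩
            exact ⟨hp, h3, h2⟩)
        apply hcov (c, c, true)
        refine h1.subset ?_
        rintro p ⟨hp, h2⟩
        refine ⟨hp, fun h3 => ?_⟩
        have h2' : ¬ (p.2 < F c p.1 ∧ (p.2 < F c p.1 ↔ true = true)) := h2
        exact h2' ⟨h3, fun _ => rfl, fun _ => h3⟩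
      · push Not at hX
        obtain ⟨a', ha'⟩ := hX
        have hY : ∀ a, {p ∈ G | p.2 < F a p.1 ∧ p.2 < F c p.1}.Finite := by
          intro a
          rcases hcmp a a' with h | h
          · exact absurd h (by simpa using ha')
          · exact h
        refine U3c_D ι f F hfF hno {p ∈ G | p.2 < F c p.1} (hcolsub _ fun p hp => hp.1) ?_
        intro a
        refine (hY a).subset ?_
        rintro p ⟨⟨hp, h2⟩, h3⟩
        exact ⟨hp, h3, h2⟩
    exact hinf (U3c_D ι f F hfF hno G hcol hc)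

end SU3c

/-! ### Assembly -/

theorem S1_mono {A B C : ∀ X : Set ℝ, Set (Set X) → Prop} {X : Set ℝ}
    (h : ∀ U, B X U → C X U) (hs : S1 A B X) : S1 A C X := by
  intro U hU
  obtain ⟨V, h1, h2⟩ := hs U hU
  exact ⟨V, h1, h _ h2⟩

theorem card_aux1 {κ : Cardinal.{0}} (h0 : ℵ₀ ≤ κ) {ι : Type} (h : #ι ≤ κ) :
    max #((ι ⊕ ℕ) × Bool) ℵ₀ ≤ κ := by
  refine max_le ?_ h0
  have h1 : #(ι ⊕ ℕ) ≤ κ := by
    rw [Cardinal.mk_sum]; simpa using Cardinal.add_le_of_le h0 h h0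
  rw [Cardinal.mk_prod]
  simp only [Cardinal.lift_id]
  refine Cardinal.mul_le_of_le h0 h1 ?_
  exact (Cardinal.mk_le_aleph0 (α := Bool)).trans h0

theorem card_aux2 {κ : Cardinal.{0}} (h0 : ℵ₀ ≤ κ) {ι σ : Type} (h : #ι ≤ κ) (h' : #σ ≤ κ) :
    max #((ι ⊕ ℕ) × σ × Bool) ℵ₀ ≤ κ := by
  refine max_le ?_ h0
  have h1 : #(ι ⊕ ℕ) ≤ κ := by
    rw [Cardinal.mk_sum]; simpa using Cardinal.add_le_of_le h0 h h0
  have h2 : #(σ × Bool) ≤ κ := by
    rw [Cardinal.mk_prod]
    simp only [Cardinal.lift_id]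
    exact Cardinal.mul_le_of_le h0 h' ((Cardinal.mk_le_aleph0 (α := Bool)).trans h0)
  rw [Cardinal.mk_prod]
  simp only [Cardinal.lift_id]
  exact Cardinal.mul_le_of_le h0 h1 h2

theorem card_aux3 {κ : Cardinal.{0}} (h0 : ℵ₀ ≤ κ) {ι σ : Type} (h : #ι ≤ κ) (h' : #σ ≤ κ) :
    max #(ι × σ × Bool) ℵ₀ ≤ κ := by
  refine max_le ?_ h0
  have h2 : #(σ × Bool) ≤ κ := by
    rw [Cardinal.mk_prod]
    simp only [Cardinal.lift_id]
    exact Cardinal.mul_le_of_le h0 h' ((Cardinal.mk_le_aleph0 (α := Bool)).trans h0)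
  rw [Cardinal.mk_prod]
  simp only [Cardinal.lift_id]
  exact Cardinal.mul_le_of_le h0 h h2

theorem U1 {κ : Cardinal.{0}} (h0 : ℵ₀ ≤ κ)
    (h : ∀ X : Set ℝ, X.Nonempty → #X ≤ κ → S1 Ta Ta X) : TL κ := by
  intro ι A hι hinf hcomp
  by_contra hno
  obtain ⟨B, h1, h2, h3⟩ := U1c ι A hinf hcomp hno
  obtain ⟨X, hX, hc, hs, -, -⟩ := transfer _ B h1 h2
  exact h3 (hs (h X hX (hc.trans (card_aux1 h0 hι))))

theorem U2 {κ : Cardinal.{0}} (h0 : ℵ₀ ≤ κ)
    (h : ∀ X : Set ℝ, X.Nonempty → #X ≤ κ → Sfin Ta Ta X) : SL κ := by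
  intro σ S hσ
  by_contra hno
  have hT : ¬ TL κ := fun hT => hno (TL_SL hT σ S hσ)
  simp only [TL, not_forall] at hT
  obtain ⟨ι, T, hι, hinf, hcomp, hno'⟩ := hT
  obtain ⟨B, h1, h2, h3⟩ := U2c ι σ T hinf hcomp hno' S hno
  obtain ⟨X, hX, hc, -, -, hs⟩ := transfer _ B h1 h2
  exact h3 (hs (Or.inl (h X hX (hc.trans (card_aux2 h0 hι hσ)))))

theorem U3 {κ : Cardinal.{0}} (h0 : ℵ₀ ≤ κ)
    (h : ∀ X : Set ℝ, X.Nonempty → #X ≤ κ → Sfin Ga Ta X) : BL κ := by
  intro ι f hι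
  by_contra hno
  obtain ⟨B, h1, h3⟩ := U3c ι f hno
  have h2 : ∀ i n, (B i n).Infinite := fun i n hf => by
    have := hf.union (h1 i n)
    rw [Set.union_compl_self] at this
    exact Set.infinite_univ this
  have h2' : ∀ n i j, AS (B i n) (B j n) ∨ AS (B j n) (B i n) := fun n i j =>
    Or.inl ((h1 j n).subset fun x hx => hx.2)
  obtain ⟨X, hX, hc, -, -, hs⟩ := transfer _ B h2 h2'
  exact h3 (hs (Or.inr ⟨h X hX (hc.trans (card_aux3 h0 hι hι)), h1⟩))

theorem U4 {κ : Cardinal.{0}} (h0 : ℵ₀ ≤ κ)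
    (h : ∀ X : Set ℝ, X.Nonempty → #X ≤ κ → S1 Ta Cov X) : OL κ := by
  intro ι A hι hinf hcomp
  obtain ⟨X, hX, hc, -, hs, -⟩ := transfer _ A hinf hcomp
  exact hs (h X hX (hc.trans (max_le hι h0)))

theorem Ga_Ta {X : Set ℝ} {U : Set (Set X)} (h : Ga X U) : Ta X U := by
  refine ⟨h.1, fun x hf => ?_, fun x y => Or.inl ((h.2.2 y).subset fun u hu => ⟨hu.1, hu.2.2⟩)⟩
  have := hf.union (h.2.2 x)
  refine h.2.1 (this.subset fun u hu => ?_)
  by_cases hx : x ∈ u
  · exact Or.inl ⟨hu, hx⟩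
  · exact Or.inr ⟨hu, hx⟩

theorem Sfin_Ga_of_Ta {X : Set ℝ} (h : Sfin Ta Ta X) : Sfin Ga Ta X :=
  fun U hU => h U fun n => Ga_Ta (hU n)

/-! No finite counterexamples. -/

theorem no_Ta_of_finite {X : Set ℝ} (hX : X.Nonempty) (hf : X.Finite) (U : Set (Set X)) :
    ¬ Ta X U := by
  intro h
  obtain ⟨x, hx⟩ := hX
  have : Finite X := hf
  exact h.2.1 ⟨x, hx⟩ (Set.toFinite _)

theorem BL_aleph0 {κ : Cardinal.{0}} (h : κ ≤ ℵ₀) : BL κ := by
  intro ι f hι
  have : Countable ι := Cardinal.mk_le_aleph0_iff.1 (hι.trans h)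
  obtain ⟨e, he⟩ := exists_injective_nat ι
  rcases isEmpty_or_nonempty ι with hE | hN
  · exact ⟨0, fun i => (hE.false i).elim⟩
  · refine ⟨fun n => (Finset.range (n + 1)).sup fun k => f (Function.invFun e k) n, fun i => ?_⟩
    refine (Set.finite_lt_nat (e i)).subset fun n hn => ?_
    simp only [Set.mem_ofPred_eq] at hn ⊢
    by_contra hlt
    push Not at hlt
    have h1 : f (Function.invFun e (e i)) n ≤
        (Finset.range (n + 1)).sup fun k => f (Function.invFun e k) n :=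
      Finset.le_sup (f := fun k => f (Function.invFun e k) n)
        (Finset.mem_range.2 (Nat.lt_succ_of_le hlt))
    rw [Function.leftInverse_invFun he i] at h1
    omega

theorem OL_aleph0 {κ : Cardinal.{0}} (h : κ ≤ ℵ₀) : OL κ := by
  intro ι A hι hinf _
  have : Countable ι := Cardinal.mk_le_aleph0_iff.1 (hι.trans h)
  obtain ⟨e, he⟩ := exists_injective_nat ι
  rcases isEmpty_or_nonempty ι with hE | hN
  · exact ⟨0, fun i => (hE.false i).elim⟩
  · refine ⟨fun n => ((hinf (Function.invFun e n) n).nonempty).some, fun i => ⟨e i, ?_⟩⟩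
    have := ((hinf (Function.invFun e (e i)) (e i)).nonempty).some_mem
    rw [Function.leftInverse_invFun he i] at this
    simpa [Function.leftInverse_invFun he i] using this

theorem sInf_eq {S T : Set Cardinal.{0}} (h1 : ∀ κ ∈ S, ∃ κ' ∈ T, κ' ≤ κ)
    (h2 : ∀ κ ∈ T, ∃ κ' ∈ S, κ' ≤ κ) : sInf S = sInf T := by
  rcases S.eq_empty_or_nonempty with hS | hS
  · have hT : T = ∅ := by
      rcases T.eq_empty_or_nonempty with hT | ⟨κ, hκ⟩
      · exact hT
      · obtain ⟨κ', h, -⟩ := h2 κ hκ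
        simp [hS] at h
    rw [hS, hT]
  · have hT : T.Nonempty := by
      obtain ⟨κ, hκ⟩ := hS
      obtain ⟨κ', h, -⟩ := h1 κ hκ
      exact ⟨κ', h⟩
    apply le_antisymm
    · obtain ⟨κ', h, h'⟩ := h2 _ (csInf_mem hT)
      exact (csInf_le' h).trans h'
    · obtain ⟨κ', h, h'⟩ := h1 _ (csInf_mem hS)
      exact (csInf_le' h).trans h'

theorem non_S1TT : non (S1 Ta Ta) = tNum := by
  apply sInf_eq
  · rintro κ ⟨X, hX, hn, rfl⟩
    have hT : ¬ TL #X := fun hT => hn (L1 hT (TL_BL hT) X hX le_rfl)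
    simp only [TL, not_forall] at hT
    obtain ⟨ι, T, hι, hinf, hcomp, hno⟩ := hT
    refine ⟨#(Set.range T), ⟨Set.range T, ?_, ?_, ?_, rfl⟩, Cardinal.mk_range_le.trans hι⟩
    · rintro _ ⟨i, rfl⟩; exact hinf i
    · rintro _ ⟨i, rfl⟩ _ ⟨j, rfl⟩; exact hcomp i j
    · rintro ⟨P, hP, h⟩; exact hno ⟨P, hP, fun i => h _ ⟨i, rfl⟩⟩
  · rintro κ ⟨T, hinf, hcomp, hno, rfl⟩
    have hnT : ¬ TL #T := fun hT => by
      obtain ⟨P, hP, h⟩ := hT T (fun A => A.1) le_rfl (fun i => hinf _ i.2)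
        (fun i j => hcomp _ i.2 _ j.2)
      exact hno ⟨P, hP, fun A hA => h ⟨A, hA⟩⟩
    have h0 : ℵ₀ ≤ #T := not_lt.1 fun h => hnT (TL_fin h)
    by_contra hcon
    push Not at hcon
    refine hnT (U1 h0 fun X hX hc => ?_)
    by_contra hn
    exact absurd hc (not_le.2 (hcon _ ⟨X, hX, hn, rfl⟩))

theorem non_SfinGT : non (Sfin Ga Ta) = bNum := by
  apply sInf_eq
  · rintro κ ⟨X, hX, hn, rfl⟩
    have hT : ¬ BL #X := fun hT => hn (L3 hT X hX le_rfl)
    simp only [BL, not_forall] at hT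
    obtain ⟨ι, f, hι, hno⟩ := hT
    refine ⟨#(Set.range f), ⟨Set.range f, ?_, rfl⟩, Cardinal.mk_range_le.trans hι⟩
    rintro ⟨h, hh⟩; exact hno ⟨h, fun i => hh _ ⟨i, rfl⟩⟩
  · rintro κ ⟨F, hno, rfl⟩
    have hnT : ¬ BL #F := fun hT => by
      obtain ⟨h, hh⟩ := hT F (fun A => A.1) le_rfl
      exact hno ⟨h, fun f hf => hh ⟨f, hf⟩⟩
    have h0 : ℵ₀ ≤ #F := not_lt.1 fun h => hnT (BL_aleph0 h.le)
    by_contra hcon
    push Not at hcon
    refine hnT (U3 h0 fun X hX hc => ?_)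
    by_contra hn
    exact absurd hc (not_le.2 (hcon _ ⟨X, hX, hn, rfl⟩))

theorem non_od (P : Set ℝ → Prop) (hP1 : ∀ X, S1 Ta Om X → P X) (hP2 : ∀ X, P X → S1 Ta Cov X) :
    non P = odNum := by
  apply sInf_eq
  · rintro κ ⟨X, hX, hn, rfl⟩
    have h0 : ℵ₀ ≤ #X := by
      by_contra h
      push Not at h
      have hf : X.Finite := Cardinal.lt_aleph0_iff_set_finite.1 h
      exact hn (hP1 X fun U hU => (no_Ta_of_finite hX hf _ (hU 0)).elim)
    have hT : ¬ OL #X := fun hT => hn (hP1 X (L4 hT h0 X hX le_rfl))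
    simp only [OL, not_forall] at hT
    obtain ⟨ι, A, hι, hinf, hcomp, hno⟩ := hT
    refine ⟨#(Set.range A), ⟨Set.range A, ?_, ?_, ?_, rfl⟩, Cardinal.mk_range_le.trans hι⟩
    · rintro _ ⟨i, rfl⟩; exact hinf i
    · rintro n _ ⟨i, rfl⟩ _ ⟨j, rfl⟩; exact hcomp n i j
    · rintro ⟨g, hg⟩; exact hno ⟨g, fun i => hg _ ⟨i, rfl⟩⟩
  · rintro κ ⟨F, hinf, hcomp, hno, rfl⟩
    have hnT : ¬ OL #F := fun hT => by
      obtain ⟨g, hg⟩ := hT F (fun A => A.1) le_rfl (fun i => hinf _ i.2)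
        (fun n i j => hcomp n _ i.2 _ j.2)
      exact hno ⟨g, fun A hA => hg ⟨A, hA⟩⟩
    have h0 : ℵ₀ ≤ #F := not_lt.1 fun h => hnT (OL_aleph0 h.le)
    by_contra hcon
    push Not at hcon
    refine hnT (U4 h0 fun X hX hc => hP2 X ?_)
    by_contra hn
    exact absurd hc (not_le.2 (hcon _ ⟨X, hX, hn, rfl⟩))

theorem non_S1TOm : non (S1 Ta Om) = odNum :=
  non_od _ (fun _ h => h) fun _ h => S1_mono (fun _ hU => hU.1) h

theorem non_S1TO : non (S1 Ta Cov) = odNum :=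
  non_od _ (fun _ h => S1_mono (fun _ hU => hU.1) h) fun _ h => h

theorem non_SfinTT : non (Sfin Ta Ta) = min sNum bNum := by
  have hs0 : {κ : Cardinal.{0} | ∃ F : Set (Set ℕ),
    (∀ A : Set ℕ, A.Infinite → ∃ S ∈ F, (A ∩ S).Infinite ∧ (A \ S).Infinite) ∧ #F = κ}.Nonempty := by
    refine ⟨_, Set.univ, fun A hA => ?_, rfl⟩
    refine ⟨Set.range fun k => hA.natEmbedding A (2 * k), Set.mem_univ _, ?_, ?_⟩
    · refine (Set.infinite_range_of_injective (f := fun k : ℕ =>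
        ((hA.natEmbedding A (2 * k) : A) : ℕ)) fun a b h => ?_).mono ?_
      · have := (hA.natEmbedding A).injective (Subtype.ext h)
        omega
      · rintro _ ⟨k, rfl⟩
        exact ⟨(hA.natEmbedding A (2 * k)).2, ⟨k, rfl⟩⟩
    · refine (Set.infinite_range_of_injective (f := fun k : ℕ =>
        ((hA.natEmbedding A (2 * k + 1) : A) : ℕ)) fun a b h => ?_).mono ?_
      · have := (hA.natEmbedding A).injective (Subtype.ext h)
        omega
      · rintro _ ⟨k, rfl⟩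
        refine ⟨(hA.natEmbedding A (2 * k + 1)).2, ?_⟩
        rintro ⟨j, hj⟩
        have := (hA.natEmbedding A).injective (Subtype.ext hj)
        omega
  have hb0 : {κ : Cardinal.{0} | ∃ F : Set (ℕ → ℕ),
      (¬ ∃ h : ℕ → ℕ, ∀ f ∈ F, {n | h n < f n}.Finite) ∧ #F = κ}.Nonempty := by
    refine ⟨_, Set.univ, ?_, rfl⟩
    rintro ⟨h, hh⟩
    have := hh (fun n => h n + 1) (Set.mem_univ _)
    simp only [Nat.lt_succ_self, Set.ofPred_true] at this
    exact Set.infinite_univ this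
  have key1 : ∃ X : Set ℝ, X.Nonempty ∧ ¬ Sfin Ta Ta X ∧ #X ≤ sNum := by
    obtain ⟨F, hF, hc⟩ := csInf_mem hs0
    have hn : ¬ SL sNum := fun h => by
      obtain ⟨A, hA, h1⟩ := h F (fun S => S.1) (le_of_eq hc)
      obtain ⟨S, hS, h2, h3⟩ := hF A hA
      rcases h1 ⟨S, hS⟩ with h | h
      · exact h2 h
      · exact h3 h
    have h0 : ℵ₀ ≤ sNum := not_lt.1 fun h => hn (TL_SL (TL_fin h))
    by_contra hcon
    push Not at hcon
    refine hn (U2 h0 fun X hX hc => ?_)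
    by_contra hn
    exact absurd hc (not_le.2 (hcon X hX hn))
  have key2 : ∃ X : Set ℝ, X.Nonempty ∧ ¬ Sfin Ta Ta X ∧ #X ≤ bNum := by
    obtain ⟨F, hF, hc⟩ := csInf_mem hb0
    have hn : ¬ BL bNum := fun h => by
      obtain ⟨g, h1⟩ := h F (fun S => S.1) (le_of_eq hc)
      exact hF ⟨g, fun f hf => h1 ⟨f, hf⟩⟩
    have h0 : ℵ₀ ≤ bNum := not_lt.1 fun h => hn (BL_aleph0 h.le)
    by_contra hcon
    push Not at hcon
    refine hn (U3 h0 fun X hX hc => ?_)
    by_contra hn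
    exact absurd hc (not_le.2 (hcon X hX fun h => hn (Sfin_Ga_of_Ta h)))
  apply le_antisymm
  · apply le_min
    · obtain ⟨X, hX, hn, hc⟩ := key1
      have : non (Sfin Ta Ta) ≤ #X := csInf_le' ⟨X, hX, hn, rfl⟩
      exact this.trans hc
    · obtain ⟨X, hX, hn, hc⟩ := key2
      have : non (Sfin Ta Ta) ≤ #X := csInf_le' ⟨X, hX, hn, rfl⟩
      exact this.trans hc
  · have hne : {κ | ∃ X : Set ℝ, X.Nonempty ∧ ¬ Sfin Ta Ta X ∧ #X = κ}.Nonempty := by
      obtain ⟨X, hX, hn, hc⟩ := key1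
      exact ⟨_, X, hX, hn, rfl⟩
    obtain ⟨X, hX, hn, hc⟩ := csInf_mem hne
    have hc' : #X = non (Sfin Ta Ta) := hc
    rw [← hc']
    have h0 : ℵ₀ ≤ #X := by
      by_contra h
      push Not at h
      have hf : X.Finite := Cardinal.lt_aleph0_iff_set_finite.1 h
      exact hn fun U hU => (no_Ta_of_finite hX hf _ (hU 0)).elim
    by_contra hlt
    push Not at hlt
    obtain ⟨hlt1, hlt2⟩ := lt_min_iff.1 hlt
    refine hn (L2 ?_ ?_ h0 X hX le_rfl)
    · intro ι S hι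
      by_contra hno
      refine absurd ((csInf_le' (s := {κ : Cardinal.{0} | ∃ F : Set (Set ℕ),
        (∀ A : Set ℕ, A.Infinite → ∃ S ∈ F, (A ∩ S).Infinite ∧ (A \ S).Infinite) ∧ #F = κ})
        ⟨Set.range S, fun A hA => ?_, rfl⟩).trans (Cardinal.mk_range_le.trans hι)) (not_le.2 hlt1)
      by_contra hA'
      refine hno ⟨A, hA, fun i => ?_⟩
      by_contra hi
      rw [not_or] at hi
      exact hA' ⟨S i, ⟨i, rfl⟩, hi.1, hi.2⟩
    · intro ι f hι
      by_contra hno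
      refine absurd ((csInf_le' (s := {κ : Cardinal.{0} | ∃ F : Set (ℕ → ℕ),
        (¬ ∃ h : ℕ → ℕ, ∀ f ∈ F, {n | h n < f n}.Finite) ∧ #F = κ})
        ⟨Set.range f, ?_, rfl⟩).trans (Cardinal.mk_range_le.trans hι)) (not_le.2 hlt2)
      rintro ⟨h, hh⟩
      exact hno ⟨h, fun i => hh _ ⟨i, rfl⟩⟩

end Pool.Agent.Helper803.TauCov
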